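import Pool.Agent.V5helper40.MQR.Sel

/-!
# Functions `h (F₀) + B (F, F)` of a row plus a quadratic form: the criterion
-/

set_option autoImplicit false

open MeasureTheory Set Filter Topology

namespace Pool.Agent.V5helper40.MQR

open Pool.Agent.W779.Morrey hiding en en_apply
open Pool.Agent.N555.MQ

/-- the first row -/
noncomputable def rowL : E →L[ℝ] V := ContinuousLinearMap.proj (R := ℝ) (φ := fun _ : Fin 2 => V) 0

theorem rowL_apply (F : E) : rowL F = F 0 := rfl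

/-- the unit matrices -/
noncomputable def eu (r l : Fin 2) : E := Pi.single r (Pi.single l 1)

/-- the coefficients of a bilinear form -/
noncomputable def cf (B : E →L[ℝ] E →L[ℝ] ℝ) (r l s m : Fin 2) : ℝ := B (eu r l) (eu s m)

theorem eu_expand (F : E) :
    F = F 0 0 • eu 0 0 + F 0 1 • eu 0 1 + F 1 0 • eu 1 0 + F 1 1 • eu 1 1 := by
  ext r l
  fin_cases r <;> fin_cases l <;> simp [eu]

theorem B_expand (B : E →L[ℝ] E →L[ℝ] ℝ) (F H : E) :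
    B F H = ∑ r, ∑ l, ∑ s, ∑ m, F r l * H s m * cf B r l s m := by
  conv_lhs => rw [eu_expand F, eu_expand H]
  simp only [map_add, map_smul, _root_.add_apply, FunLike.coe_smul, Pi.smul_apply, smul_eq_mul,
    Fin.sum_univ_two, cf]
  ring

/-- the linear form of the second derivatives of the second component -/
noncomputable def aL (α0 α1 α2 : ℝ) : E →L[ℝ] ℝ :=
  α0 • en 0 0 + α1 • (en 0 1 + en 1 0) + α2 • en 1 1

noncomputable def pL (B : E →L[ℝ] E →L[ℝ] ℝ) : E →L[ℝ] ℝ :=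
  cf B 0 0 0 0 • en 0 0 + (cf B 0 0 0 1 + cf B 0 1 0 0) • en 0 1 + cf B 0 1 0 1 • en 1 1

noncomputable def mL (B : E →L[ℝ] E →L[ℝ] ℝ) : E →L[ℝ] ℝ :=
  (cf B 0 0 1 0 + cf B 1 0 0 0) • en 0 0
    + (cf B 0 0 1 1 + cf B 1 1 0 0 + cf B 0 1 1 0 + cf B 1 0 0 1) • en 0 1
    + (cf B 0 1 1 1 + cf B 1 1 0 1) • en 1 1

/-- the quadratic form on the symmetric matrices -/
noncomputable def TT (β γ : V) (B : E →L[ℝ] E →L[ℝ] ℝ) (S : V →L[ℝ] V →L[ℝ] ℝ) :
    E →L[ℝ] E →L[ℝ] ℝ :=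
  S.bilinearComp (colL β) (colL β) + S.bilinearComp (colL γ) (colL γ)
    + (2 : ℝ) • (aL (β 0 ^ 2 + γ 0 ^ 2) (β 0 * β 1 + γ 0 * γ 1) (β 1 ^ 2 + γ 1 ^ 2)).smulRight (pL B)
    - (1 / 2 : ℝ) • (mL B).smulRight (mL B)

theorem TT_apply (β γ : V) (B : E →L[ℝ] E →L[ℝ] ℝ) (S : V →L[ℝ] V →L[ℝ] ℝ) (H : E) :
    TT β γ B S H H = S (col β H) (col β H) + S (col γ H) (col γ H)
      + 2 * (((β 0 ^ 2 + γ 0 ^ 2) * H 0 0 + (β 0 * β 1 + γ 0 * γ 1) * (H 0 1 + H 1 0)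
          + (β 1 ^ 2 + γ 1 ^ 2) * H 1 1)
        * (cf B 0 0 0 0 * H 0 0 + (cf B 0 0 0 1 + cf B 0 1 0 0) * H 0 1 + cf B 0 1 0 1 * H 1 1))
      - 1 / 2 * ((cf B 0 0 1 0 + cf B 1 0 0 0) * H 0 0
        + (cf B 0 0 1 1 + cf B 1 1 0 0 + cf B 0 1 1 0 + cf B 1 0 0 1) * H 0 1
        + (cf B 0 1 1 1 + cf B 1 1 0 1) * H 1 1) ^ 2 := by
  simp only [TT, aL, pL, mL, _root_.sub_apply, _root_.add_apply, FunLike.coe_smul, Pi.smul_apply,
    ContinuousLinearMap.smulRight_apply, ContinuousLinearMap.bilinearComp_apply, colL_apply,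
    en_apply, smul_eq_mul]
  ring

/-- the constants of the null forms -/
noncomputable def CC (β γ : V) (B : E →L[ℝ] E →L[ℝ] ℝ) : Fin 2 → Fin 2 → Fin 2 → Fin 2 → ℝ :=
  ![![![![0, -(-2 * (β 0 ^ 2 + γ 0 ^ 2) * cf B 0 1 0 1
            + 2 * (β 0 * β 1 + γ 0 * γ 1) * (cf B 0 0 0 1 + cf B 0 1 0 0)
            - 2 * (β 1 ^ 2 + γ 1 ^ 2) * cf B 0 0 0 0)],
        ![-(2 * (β 0 ^ 2 + γ 0 ^ 2) * (cf B 0 0 1 1 + cf B 1 1 0 0)
            - 2 * (β 0 * β 1 + γ 0 * γ 1) * (cf B 0 0 1 0 + cf B 1 0 0 0)),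
          -(2 * (β 0 * β 1 + γ 0 * γ 1) * (cf B 0 0 1 1 + cf B 1 1 0 0)
            - 2 * (β 1 ^ 2 + γ 1 ^ 2) * (cf B 0 0 1 0 + cf B 1 0 0 0))]],
      ![![0, 0],
        ![-(2 * (β 0 ^ 2 + γ 0 ^ 2) * (cf B 0 1 1 1 + cf B 1 1 0 1)
            - 2 * (β 0 * β 1 + γ 0 * γ 1) * (cf B 0 1 1 0 + cf B 1 0 0 1)),
          -(2 * (β 0 * β 1 + γ 0 * γ 1) * (cf B 0 1 1 1 + cf B 1 1 0 1)
            - 2 * (β 1 ^ 2 + γ 1 ^ 2) * (cf B 0 1 1 0 + cf B 1 0 0 1))]]],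
    ![![![0, 0],
        ![0, -(4 * (β 0 * β 1 + γ 0 * γ 1) ^ 2 - 4 * (β 0 ^ 2 + γ 0 ^ 2) * (β 1 ^ 2 + γ 1 ^ 2))]],
      ![![0, 0], ![0, 0]]]]

/-- the algebraic identity -/
theorem alg_identity (β γ : V) (B : E →L[ℝ] E →L[ℝ] ℝ)
    (h1 : cf B 1 0 1 0 = β 0 ^ 2 + γ 0 ^ 2)
    (h2 : cf B 1 0 1 1 + cf B 1 1 1 0 = 2 * (β 0 * β 1 + γ 0 * γ 1))
    (h3 : cf B 1 1 1 1 = β 1 ^ 2 + γ 1 ^ 2) (G : Fin 2 → E) (hG : ∀ r, G 0 r 1 = G 1 r 0) :
    2 * B (β 0 • G 0 + β 1 • G 1) (β 0 • G 0 + β 1 • G 1)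
      + 2 * B (γ 0 • G 0 + γ 1 • G 1) (γ 0 • G 0 + γ 1 • G 1)
      + ∑ r, ∑ l, ∑ s, ∑ m, CC β γ B r l s m * nf G r l s m
      = 2 * ((β 0 ^ 2 + γ 0 ^ 2) * G 0 1 0 + 2 * (β 0 * β 1 + γ 0 * γ 1) * G 0 1 1
          + (β 1 ^ 2 + γ 1 ^ 2) * G 1 1 1
          + 1 / 2 * ((cf B 0 0 1 0 + cf B 1 0 0 0) * G 0 0 0
        + (cf B 0 0 1 1 + cf B 1 1 0 0 + cf B 0 1 1 0 + cf B 1 0 0 1) * G 0 0 1
        + (cf B 0 1 1 1 + cf B 1 1 0 1) * G 1 0 1)) ^ 2
      + 2 * (((β 0 ^ 2 + γ 0 ^ 2) * G 0 0 0 + (β 0 * β 1 + γ 0 * γ 1) * (2 * G 0 0 1)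
          + (β 1 ^ 2 + γ 1 ^ 2) * G 1 0 1)
        * (cf B 0 0 0 0 * G 0 0 0 + (cf B 0 0 0 1 + cf B 0 1 0 0) * G 0 0 1
          + cf B 0 1 0 1 * G 1 0 1))
      - 1 / 2 * ((cf B 0 0 1 0 + cf B 1 0 0 0) * G 0 0 0
        + (cf B 0 0 1 1 + cf B 1 1 0 0 + cf B 0 1 1 0 + cf B 1 0 0 1) * G 0 0 1
        + (cf B 0 1 1 1 + cf B 1 1 0 1) * G 1 0 1) ^ 2 := by
  have g0 := hG 0
  have g1 := hG 1
  have h2' : cf B 1 1 1 0 = 2 * (β 0 * β 1 + γ 0 * γ 1) - cf B 1 0 1 1 := by linarith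
  rw [B_expand, B_expand]
  simp only [Fin.sum_univ_two, Pi.add_apply, Pi.smul_apply, smul_eq_mul, nf, CC,
    Matrix.cons_val_zero, Matrix.cons_val_one, Matrix.cons_val_fin_one, ← g0, ← g1, h1, h2', h3]
  ring

/-- the criterion for smooth functions of the first row plus a quadratic form -/
theorem smooth_row {h : V → ℝ} (hh : ContDiff ℝ 2 h) (B : E →L[ℝ] E →L[ℝ] ℝ)
    (hR : ∀ (p : V) (H : E), dt H = 0 → 0 ≤ fderiv ℝ (fderiv ℝ h) p (H 0) (H 0) + 2 * B H H)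
    (hpd : ∀ H : E, H 0 = 0 → H ≠ 0 → 0 < B H H) : QCtrig (fun F : E => h (F 0) + B F F) := by
  -- positivity of the block of the second row
  have hblk : ∀ x y : ℝ, (x ≠ 0 ∨ y ≠ 0) → 0 < cf B 1 0 1 0 * x ^ 2
      + (cf B 1 0 1 1 + cf B 1 1 1 0) * (x * y) + cf B 1 1 1 1 * y ^ 2 := by
    intro x y hxy
    have e := hpd (![0, ![x, y]]) rfl (by
      intro h0
      have h1 := congrFun (congrFun h0 1) 0
      have h2 := congrFun (congrFun h0 1) 1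
      simp only [Matrix.cons_val_zero, Matrix.cons_val_one, Matrix.cons_val_fin_one,
        Pi.zero_apply] at h1 h2
      rcases hxy with h | h
      · exact h h1
      · exact h h2)
    rw [B_expand] at e
    simp only [Fin.sum_univ_two, Matrix.cons_val_zero, Matrix.cons_val_one,
      Matrix.cons_val_fin_one, Pi.zero_apply] at e
    nlinarith [e]
  set a := cf B 1 0 1 0 with ha
  set b := (cf B 1 0 1 1 + cf B 1 1 1 0) / 2 with hb
  set c := cf B 1 1 1 1 with hc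
  have ha0 : 0 < a := by
    have := hblk 1 0 (Or.inl one_ne_zero)
    nlinarith
  have hdisc : b ^ 2 < a * c := by
    have h1 := hblk (-b) a (Or.inr ha0.ne')
    have h2 : a * (-b) ^ 2 + (cf B 1 0 1 1 + cf B 1 1 1 0) * (-b * a) + c * a ^ 2
        = a * (a * c - b ^ 2) := by
      have : cf B 1 0 1 1 + cf B 1 1 1 0 = 2 * b := by rw [hb]; ring
      rw [this]; ring
    rw [h2] at h1
    have h3 : 0 < a * c - b ^ 2 := by
      by_contra hcon
      push Not at hcon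
      have := mul_nonpos_of_nonneg_of_nonpos ha0.le hcon
      linarith
    linarith
  obtain ⟨β, γ, e1, e2, e3, e4⟩ := chol ha0 hdisc
  have f2 : cf B 1 0 1 1 + cf B 1 1 1 0 = 2 * (β 0 * β 1 + γ 0 * γ 1) := by rw [e2, hb]; ring
  have hP1 : ContDiff ℝ 1 (fderiv ℝ h) := hh.fderiv_right (by norm_num)
  have hHc : Continuous (fderiv ℝ (fderiv ℝ h)) := hP1.continuous_fderiv (by norm_num)
  obtain ⟨ℓ, hℓ, hbℓ, hT⟩ := sel_sym (fun p => TT β γ B (fderiv ℝ (fderiv ℝ h) p))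
    (fun H => by
      simp only [TT_apply]
      have c1 : ∀ v : V, Continuous (fun p => fderiv ℝ (fderiv ℝ h) p v v) := fun v =>
        (hHc.clm_apply continuous_const).clm_apply continuous_const
      exact (((c1 _).add (c1 _)).add continuous_const).sub continuous_const)
    (fun p S hs hd => by
      obtain ⟨σ, w, hσ⟩ := sym_singular S hs hd
      have hcol : ∀ δ : V, col δ S = (σ * (w 0 * δ 0 + w 1 * δ 1)) • w := by
        intro δ
        ext r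
        simp only [col, hσ, Pi.smul_apply, smul_eq_mul]
        ring
      rw [TT_apply, hcol, hcol]
      simp only [map_smul, FunLike.coe_smul, Pi.smul_apply, smul_eq_mul, hσ]
      set X := fderiv ℝ (fderiv ℝ h) p w w with hX
      set Aw := a * w 0 ^ 2 + 2 * b * (w 0 * w 1) + c * w 1 ^ 2 with hAw
      set Pw := cf B 0 0 0 0 * w 0 ^ 2 + (cf B 0 0 0 1 + cf B 0 1 0 0) * (w 0 * w 1)
        + cf B 0 1 0 1 * w 1 ^ 2 with hPw
      set Mw := (cf B 0 0 1 0 + cf B 1 0 0 0) * w 0 ^ 2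
        + (cf B 0 0 1 1 + cf B 1 1 0 0 + cf B 0 1 1 0 + cf B 1 0 0 1) * (w 0 * w 1)
        + (cf B 0 1 1 1 + cf B 1 1 0 1) * w 1 ^ 2 with hMw
      have hline : ∀ s t : ℝ, 0 ≤ s ^ 2 * X + 2 * (s ^ 2 * Pw + s * t * Mw + t ^ 2 * Aw) := by
        intro s t
        have h1 := hR p (![s • w, t • w]) (by
          simp only [dt, Matrix.cons_val_zero, Matrix.cons_val_one, Matrix.cons_val_fin_one,
            Pi.smul_apply, smul_eq_mul]
          ring)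
        rw [B_expand] at h1
        simp only [Fin.sum_univ_two, Matrix.cons_val_zero, Matrix.cons_val_one,
          Matrix.cons_val_fin_one, Pi.smul_apply, smul_eq_mul, map_smul, FunLike.coe_smul] at h1
        rw [← hX] at h1
        have h2b : (cf B 1 0 1 1 + cf B 1 1 1 0) = 2 * b := by rw [hb]; ring
        refine h1.trans (le_of_eq ?_)
        rw [hPw, hMw, hAw, ← h2b, ha, hc]
        ring
      have hAw0 : 0 ≤ Aw := by
        have := hline 0 1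
        linarith
      have hkey : 0 ≤ Aw * (X + 2 * Pw) - Mw ^ 2 / 2 := by
        rcases hAw0.eq_or_lt with h0 | h0
        · have hM : Mw = 0 := by
            by_contra hne
            have h1 := hline 1 (-(X + 2 * Pw + 1) / (2 * Mw))
            rw [← h0] at h1
            have h2 : 1 ^ 2 * X + 2 * (1 ^ 2 * Pw + 1 * (-(X + 2 * Pw + 1) / (2 * Mw)) * Mw
                + (-(X + 2 * Pw + 1) / (2 * Mw)) ^ 2 * 0) = -1 := by
              field_simp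
              ring
            rw [h2] at h1
            linarith
          rw [← h0, hM]
          norm_num
        · have h1 := hline (2 * Aw) (-Mw)
          have h2 : (2 * Aw) ^ 2 * X + 2 * ((2 * Aw) ^ 2 * Pw + 2 * Aw * (-Mw) * Mw
              + (-Mw) ^ 2 * Aw) = 4 * Aw * (Aw * (X + 2 * Pw) - Mw ^ 2 / 2) := by ring
          rw [h2] at h1
          exact nonneg_of_mul_nonneg_right h1 (by positivity)
      have h5 : 0 ≤ σ ^ 2 * (Aw * (X + 2 * Pw) - Mw ^ 2 / 2) := mul_nonneg (sq_nonneg _) hkey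
      refine h5.trans (le_of_eq ?_)
      rw [hAw, hPw, hMw, ← e1, ← e2, ← e3]
      ring)
  have hW : ContDiff ℝ 2 (fun F : E => h (F 0) + B F F) := contDiff_WL hh rowL B
  refine trig_main2 hW β γ e4 hℓ hbℓ (C := CC β γ B) ?_
  intro F G hG
  have hsec : ∀ H : E, fderiv ℝ (fderiv ℝ (fun F : E => h (F 0) + B F F)) F H H
      = fderiv ℝ (fderiv ℝ h) (F 0) (H 0) (H 0) + 2 * B H H := fun H => second_WL hh rowL B F H
  rw [hsec, hsec]
  have hid := alg_identity β γ B e1.symm f2 e3.symm G hG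
  set S : E := ![![G 0 0 0, G 0 0 1], ![G 1 0 0, G 1 0 1]] with hS
  have hSs : S 0 1 = S 1 0 := by simp [hS, hG 0]
  have hTS := hT (F 0) S hSs
  rw [TT_apply] at hTS
  have hcolS : ∀ δ : V, (δ 0 • G 0 + δ 1 • G 1) 0 = col δ S := by
    intro δ
    ext l
    fin_cases l
    · simp only [Fin.zero_eta, Pi.add_apply, Pi.smul_apply, smul_eq_mul, col, hS,
        Matrix.cons_val_zero, Matrix.cons_val_one, Matrix.cons_val_fin_one]
      rw [hG 0]
      ring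
    · simp only [Fin.mk_one, Pi.add_apply, Pi.smul_apply, smul_eq_mul, col, hS,
        Matrix.cons_val_zero, Matrix.cons_val_one, Matrix.cons_val_fin_one]
      rw [hG 0]
      ring
  rw [hcolS, hcolS]
  have hdt : dt S = nf G 0 0 0 1 := by
    simp only [dt, hS, nf, Matrix.cons_val_zero, Matrix.cons_val_one, Matrix.cons_val_fin_one]
    ring
  rw [hdt] at hTS
  have s00 : S 0 0 = G 0 0 0 := rfl
  have s01 : S 0 1 = G 0 0 1 := rfl
  have s10 : S 1 0 = G 0 0 1 := (hG 0).symm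
  have s11 : S 1 1 = G 1 0 1 := rfl
  rw [s00, s01, s10, s11] at hTS
  have hsq : 0 ≤ 2 * ((β 0 ^ 2 + γ 0 ^ 2) * G 0 1 0 + 2 * (β 0 * β 1 + γ 0 * γ 1) * G 0 1 1
          + (β 1 ^ 2 + γ 1 ^ 2) * G 1 1 1
          + 1 / 2 * ((cf B 0 0 1 0 + cf B 1 0 0 0) * G 0 0 0
        + (cf B 0 0 1 1 + cf B 1 1 0 0 + cf B 0 1 1 0 + cf B 1 0 0 1) * G 0 0 1
        + (cf B 0 1 1 1 + cf B 1 1 0 1) * G 1 0 1)) ^ 2 := by positivity
  have hfin := add_nonneg hTS hsq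
  refine hfin.trans (le_of_eq ?_)
  linear_combination -hid

end Pool.Agent.V5helper40.MQR
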