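import Pool.Agent.V5helper40.MQR.Main

/-!
# Adding functions of two further linear forms
-/

set_option autoImplicit false

open MeasureTheory Set Filter Topology Matrix

namespace Pool.Agent.V5helper40.MQR

open Pool.Agent.W779.Morrey hiding en en_apply
open Pool.Agent.N555.MQ

/-- smooth functions with nonnegative second derivatives -/
theorem QCtrig_conv {W : E → ℝ} (hW : ContDiff ℝ 2 W)
    (h : ∀ F H : E, 0 ≤ fderiv ℝ (fderiv ℝ W) F H H) : QCtrig W := by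
  refine trig_main2 hW ![1, 0] ![0, 1] ?_ (ℓ := fun _ => 0) measurable_const
    (fun R => ⟨0, fun v _ => by simp⟩) (C := fun _ _ _ _ => 0) ?_
  · intro v h0 h1
    simp only [Matrix.cons_val_zero, Matrix.cons_val_one, Matrix.cons_val_fin_one, mul_one,
      mul_zero, add_zero, zero_add] at h0 h1
    ext j
    fin_cases j
    · exact h0
    · exact h1
  · intro F G _
    have h1 := h F ((![1, 0] : V) 0 • G 0 + (![1, 0] : V) 1 • G 1)
    have h2 := h F ((![0, 1] : V) 0 • G 0 + (![0, 1] : V) 1 • G 1)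
    simp only [zero_mul, Finset.sum_const_zero, add_zero]
    exact add_nonneg h1 h2

/-- a joint inequality is preserved by mollification of the three functions -/
theorem joint_hm {f₀ f₁ f₂ : V → ℝ} (h0 : Continuous f₀) (h1 : Continuous f₁) (h2 : Continuous f₂)
    {w₀ w₁ w₂ : V} {t q : ℝ}
    (h : ∀ v₀ v₁ v₂ : V, f₀ (v₀ + t • w₀) + f₁ (v₁ + t • w₁) + f₂ (v₂ + t • w₂)
      ≤ (1 - t) * (f₀ v₀ + f₁ v₁ + f₂ v₂) + t * (f₀ (v₀ + w₀) + f₁ (v₁ + w₁) + f₂ (v₂ + w₂)) + q)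
    (n : ℕ) (v₀ v₁ v₂ : V) :
    hm f₀ n (v₀ + t • w₀) + hm f₁ n (v₁ + t • w₁) + hm f₂ n (v₂ + t • w₂)
      ≤ (1 - t) * (hm f₀ n v₀ + hm f₁ n v₁ + hm f₂ n v₂)
        + t * (hm f₀ n (v₀ + w₀) + hm f₁ n (v₁ + w₁) + hm f₂ n (v₂ + w₂)) + q := by
  have a0 : ∀ v₀ v₁ v₂ : V, hm f₀ n (v₀ + t • w₀) ≤ (1 - t) * hm f₀ n v₀ + t * hm f₀ n (v₀ + w₀)
      + ((1 - t) * (f₁ v₁ + f₂ v₂) + t * (f₁ (v₁ + w₁) + f₂ (v₂ + w₂)) + q
        - f₁ (v₁ + t • w₁) - f₂ (v₂ + t • w₂)) := by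
    intro v₀ v₁ v₂
    exact hm_ineq h0 (fun v => by linarith [h v v₁ v₂]) n v₀
  have a1 : ∀ v₀ v₁ v₂ : V, hm f₁ n (v₁ + t • w₁) ≤ (1 - t) * hm f₁ n v₁ + t * hm f₁ n (v₁ + w₁)
      + ((1 - t) * (hm f₀ n v₀ + f₂ v₂) + t * (hm f₀ n (v₀ + w₀) + f₂ (v₂ + w₂)) + q
        - hm f₀ n (v₀ + t • w₀) - f₂ (v₂ + t • w₂)) := by
    intro v₀ v₁ v₂
    exact hm_ineq h1 (fun v => by linarith [a0 v₀ v v₂]) n v₁
  have a2 : hm f₂ n (v₂ + t • w₂) ≤ (1 - t) * hm f₂ n v₂ + t * hm f₂ n (v₂ + w₂)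
      + ((1 - t) * (hm f₀ n v₀ + hm f₁ n v₁) + t * (hm f₀ n (v₀ + w₀) + hm f₁ n (v₁ + w₁)) + q
        - hm f₀ n (v₀ + t • w₀) - hm f₁ n (v₁ + t • w₁)) :=
    hm_ineq h2 (fun v => by linarith [a1 v₀ v₁ v]) n v₂
  linarith

/-- the second derivatives from a joint inequality -/
theorem joint_second {f₀ f₁ f₂ : V → ℝ} (h0 : ContDiff ℝ 2 f₀) (h1 : ContDiff ℝ 2 f₁)
    (h2 : ContDiff ℝ 2 f₂) {w₀ w₁ w₂ : V} {q : ℝ}
    (h : ∀ (u t : ℝ), 0 ≤ t → t ≤ 1 → ∀ v₀ v₁ v₂ : V,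
      f₀ (v₀ + t • (u • w₀)) + f₁ (v₁ + t • (u • w₁)) + f₂ (v₂ + t • (u • w₂))
      ≤ (1 - t) * (f₀ v₀ + f₁ v₁ + f₂ v₂)
        + t * (f₀ (v₀ + u • w₀) + f₁ (v₁ + u • w₁) + f₂ (v₂ + u • w₂)) + t * (1 - t) * (u ^ 2 * q))
    (v₀ v₁ v₂ : V) :
    0 ≤ fderiv ℝ (fderiv ℝ f₀) v₀ w₀ w₀ + fderiv ℝ (fderiv ℝ f₁) v₁ w₁ w₁
      + fderiv ℝ (fderiv ℝ f₂) v₂ w₂ w₂ + 2 * q := by
  set φ : ℝ → ℝ := fun t => f₀ (v₀ + t • w₀) + f₁ (v₁ + t • w₁) + f₂ (v₂ + t • w₂) + t ^ 2 * q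
    with hφ
  set φ' : ℝ → ℝ := fun t => fderiv ℝ f₀ (v₀ + t • w₀) w₀ + fderiv ℝ f₁ (v₁ + t • w₁) w₁
    + fderiv ℝ f₂ (v₂ + t • w₂) w₂ + 2 * t * q with hφ'
  have d1 : ∀ t, HasDerivAt φ (φ' t) t := by
    intro t
    have hq : HasDerivAt (fun t : ℝ => t ^ 2 * q) (2 * t * q) t := by
      have := (hasDerivAt_pow 2 t).mul_const q
      simpa using this
    exact (((line_deriv' h0 v₀ w₀ t).1.add (line_deriv' h1 v₁ w₁ t).1).add
      (line_deriv' h2 v₂ w₂ t).1).add hq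
  have d2 : HasDerivAt φ' (fderiv ℝ (fderiv ℝ f₀) v₀ w₀ w₀ + fderiv ℝ (fderiv ℝ f₁) v₁ w₁ w₁
      + fderiv ℝ (fderiv ℝ f₂) v₂ w₂ w₂ + 2 * q) 0 := by
    have hq : HasDerivAt (fun t : ℝ => 2 * t * q) (2 * q) 0 := by
      have := ((hasDerivAt_id (0:ℝ)).const_mul 2).mul_const q
      simpa using this
    have h3 := (((line_deriv' h0 v₀ w₀ 0).2.add (line_deriv' h1 v₁ w₁ 0).2).add
      (line_deriv' h2 v₂ w₂ 0).2).add hq
    simp only [zero_smul, add_zero] at h3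
    exact h3
  have hconv : ConvexOn ℝ univ φ := by
    refine ⟨convex_univ, fun s _ u _ a b ha hb hab => ?_⟩
    have hh := h (u - s) b hb (by linarith) (v₀ + s • w₀) (v₁ + s • w₁) (v₂ + s • w₂)
    have ha' : a = 1 - b := by linarith
    have e : ∀ v w : V, v + s • w + b • ((u - s) • w) = v + (a • s + b • u) • w := by
      intro v w
      rw [ha']
      simp only [smul_eq_mul]
      module
    have e' : ∀ v w : V, v + s • w + (u - s) • w = v + u • w := by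
      intro v w
      module
    rw [e, e, e, e', e', e'] at hh
    simp only [hφ]
    simp only [smul_eq_mul] at hh ⊢
    rw [ha'] at hh ⊢
    nlinarith [hh]
  have hmono := hconv.monotoneOn_deriv fun t _ => (d1 t).differentiableAt
  have e1 : deriv φ = φ' := funext fun t => (d1 t).deriv
  rw [e1] at hmono
  have hmono' : Monotone φ' := fun a b hab => hmono (mem_univ a) (mem_univ b) hab
  exact d2.nonneg_of_monotone hmono'

/-- the projections for which the theorem on smooth functions holds -/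
def Good (P : E →L[ℝ] V) : Prop :=
  ∀ h : V → ℝ, ContDiff ℝ 2 h → ∀ B : E →L[ℝ] E →L[ℝ] ℝ,
    (∀ (p : V) (H : E), dt H = 0 → 0 ≤ fderiv ℝ (fderiv ℝ h) p (P H) (P H) + 2 * B H H) →
    QCtrig (fun F : E => h (P F) + B F F)

theorem good_col {β : V} (hβ : β ≠ 0) : Good (colL β) := by
  intro h hh B hR
  refine sel_main (contDiff_WL hh (colL β) B) β hβ fun v => ?_
  set Bv : E →L[ℝ] E →L[ℝ] ℝ :=
    (fderiv ℝ (fderiv ℝ h) v).bilinearComp (colL β) (colL β) + (2 : ℝ) • B with hBv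
  have hBva : ∀ H : E, Bv H H
      = fderiv ℝ (fderiv ℝ h) v (colL β H) (colL β H) + 2 * B H H := by
    intro H
    simp [hBv]
  obtain ⟨l, hl⟩ := slemma Bv (fun H hH => by
    rw [hBva]
    exact hR v H hH)
  refine ⟨l, fun F hF H => ?_⟩
  have h3 := hl H
  rw [hBva] at h3
  rw [second_WL hh (colL β) B, colL_apply β F, hF]
  exact h3

theorem good_row0 : Good rowL := by
  intro h hh B hR
  have hpos : ∀ n : ℕ, (0 : ℝ) < 1 / ((n : ℝ) + 1) := fun n => by positivity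
  have hlim0 : Tendsto (fun n : ℕ => 1 / ((n : ℝ) + 1)) atTop (𝓝 0) :=
    tendsto_one_div_add_atTop_nhds_zero_nat
  have hsplit : ∀ (n : ℕ) (F : E), (B + BS (1 / ((n : ℝ) + 1))) F F
      = B F F + 1 / ((n : ℝ) + 1) * (F 1 0 ^ 2 + F 1 1 ^ 2) := by
    intro n F
    rw [_root_.add_apply, _root_.add_apply, BS_apply]
  refine QCtrig_limit (Wn := fun n F => h (rowL F) + (B + BS (1 / ((n : ℝ) + 1))) F F)
    (fun n => ?_) (fun n => ?_) (fun F => ?_) (fun R => ?_)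
  · refine smooth_row hh _ (fun p H hH => ?_) (fun H hH0 hne => ?_)
    · have h1 : 0 ≤ fderiv ℝ (fderiv ℝ h) p (H 0) (H 0) + 2 * B H H := hR p H hH
      have h3 : (0 : ℝ) ≤ 1 / ((n : ℝ) + 1) * (H 1 0 ^ 2 + H 1 1 ^ 2) :=
        mul_nonneg (hpos n).le (by positivity)
      rw [hsplit]
      linarith
    · have hd : dt H = 0 := by
        have h1 := congrFun hH0 0
        have h2 := congrFun hH0 1
        simp only [Pi.zero_apply] at h1 h2
        simp [dt, h1, h2]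
      have h1 : 0 ≤ fderiv ℝ (fderiv ℝ h) 0 (H 0) (H 0) + 2 * B H H := hR 0 H hd
      rw [hH0, map_zero, zero_add] at h1
      have h3 : 0 < H 1 0 ^ 2 + H 1 1 ^ 2 := by
        have hx : H 1 0 ≠ 0 ∨ H 1 1 ≠ 0 := by
          by_contra hcon
          push Not at hcon
          refine hne ?_
          ext r l
          fin_cases r
          · exact congrFun hH0 l
          · fin_cases l
            · exact hcon.1
            · exact hcon.2
        rcases hx with h | h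
        · positivity
        · positivity
      have h4 := mul_pos (hpos n) h3
      rw [hsplit]
      linarith
  · exact (contDiff_WL hh rowL _).continuous
  · simp only [hsplit]
    have := ((hlim0.mul_const (F 1 0 ^ 2 + F 1 1 ^ 2)).const_add (B F F)).const_add (h (rowL F))
    simpa using this
  · have hc1 : Continuous (fun F : E => h (rowL F) + B F F) := (contDiff_WL hh rowL B).continuous
    have hc2 : Continuous (fun F : E => F 1 0 ^ 2 + F 1 1 ^ 2) := by fun_prop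
    obtain ⟨C1, hC1⟩ := (isCompact_closedBall (0 : E) R).exists_bound_of_continuousOn
      hc1.continuousOn
    obtain ⟨C2, hC2⟩ := (isCompact_closedBall (0 : E) R).exists_bound_of_continuousOn
      hc2.continuousOn
    refine ⟨C1 + C2, fun n F hF => ?_⟩
    have b1 := hC1 F (by rwa [mem_closedBall_zero_iff])
    have b2 := hC2 F (by rwa [mem_closedBall_zero_iff])
    rw [Real.norm_eq_abs] at b1 b2
    rw [hsplit, ← add_assoc]
    have h2 : 1 / ((n : ℝ) + 1) ≤ 1 := by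
      rw [div_le_one (by positivity)]
      have : (0 : ℝ) ≤ n := Nat.cast_nonneg n
      linarith
    have b3 : |1 / ((n : ℝ) + 1) * (F 1 0 ^ 2 + F 1 1 ^ 2)| ≤ C2 := by
      rw [abs_mul, abs_of_pos (hpos n)]
      exact (mul_le_of_le_one_left (abs_nonneg _) h2).trans b2
    exact (abs_add_le _ _).trans (add_le_add b1 b3)

theorem good_row {M N : E} (hNM : ∀ F, lm N (lm M F) = F) (hMN : ∀ F, lm M (lm N F) = F) :
    Good (rowL.comp (lm M)) := by
  intro h hh B hR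
  set B' : E →L[ℝ] E →L[ℝ] ℝ := B.bilinearComp (lm N) (lm N) with hB'
  have hB'a : ∀ F, B' F F = B (lm N F) (lm N F) := fun F => rfl
  have hq := good_row0 h hh B' (fun p H hH => by
    have h1 := hR p (lm N H) (by rw [dt_lm, hH, mul_zero])
    rw [ContinuousLinearMap.comp_apply, hMN] at h1
    rw [hB'a]
    exact h1)
  have h4 := QCtrig_lm hq M
  have e5 : (fun F : E => h (rowL (lm M F)) + B' (lm M F) (lm M F))
      = fun F : E => h (rowL (lm M F)) + B F F := by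
    funext F
    rw [hB'a, hNM]
  rw [e5] at h4
  exact h4

/-- the first unit vector -/
noncomputable def e0 : V := Pi.single 0 1

theorem e0_zero : e0 0 = 1 := by simp [e0]

/-- **A function of `P F`, functions of two further coordinates and a quadratic form.** -/
theorem ext_main {P : E →L[ℝ] V} (hP : Good P) {l₁ l₂ : E →L[ℝ] ℝ}
    (hco : ∀ (v : V) (s₁ s₂ : ℝ), ∃ F : E, P F = v ∧ l₁ F = s₁ ∧ l₂ F = s₂) {h : V → ℝ}
    {k₁ k₂ : ℝ → ℝ} (hc : Continuous h) (hk₁ : Continuous k₁) (hk₂ : Continuous k₂)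
    (B : E →L[ℝ] E →L[ℝ] ℝ)
    (hroc : ∀ F H : E, dt H = 0 → ∀ t : ℝ, 0 ≤ t → t ≤ 1 →
      h (P (F + t • H)) + k₁ (l₁ (F + t • H)) + k₂ (l₂ (F + t • H)) + B (F + t • H) (F + t • H)
        ≤ (1 - t) * (h (P F) + k₁ (l₁ F) + k₂ (l₂ F) + B F F)
          + t * (h (P (F + H)) + k₁ (l₁ (F + H)) + k₂ (l₂ (F + H)) + B (F + H) (F + H))) :
    QCtrig (fun F : E => h (P F) + k₁ (l₁ F) + k₂ (l₂ F) + B F F) := by
  set K₁ : V → ℝ := fun v => k₁ (v 0) with hK₁
  set K₂ : V → ℝ := fun v => k₂ (v 0) with hK₂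
  have hK₁c : Continuous K₁ := hk₁.comp (continuous_apply 0)
  have hK₂c : Continuous K₂ := hk₂.comp (continuous_apply 0)
  have hKe₁ : ∀ x : ℝ, K₁ (x • e0) = k₁ x := by
    intro x
    simp [hK₁, e0_zero]
  have hKe₂ : ∀ x : ℝ, K₂ (x • e0) = k₂ x := by
    intro x
    simp [hK₂, e0_zero]
  -- the joint inequality
  have hJ : ∀ H : E, dt H = 0 → ∀ t : ℝ, 0 ≤ t → t ≤ 1 → ∀ v₀ v₁ v₂ : V,
      h (v₀ + t • P H) + K₁ (v₁ + t • (l₁ H • e0)) + K₂ (v₂ + t • (l₂ H • e0))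
      ≤ (1 - t) * (h v₀ + K₁ v₁ + K₂ v₂)
        + t * (h (v₀ + P H) + K₁ (v₁ + l₁ H • e0) + K₂ (v₂ + l₂ H • e0))
        + t * (1 - t) * B H H := by
    intro H hH t ht0 ht1 v₀ v₁ v₂
    obtain ⟨F, hF0, hF1, hF2⟩ := hco v₀ (v₁ 0) (v₂ 0)
    have h1 := hroc F H hH t ht0 ht1
    simp only [hK₁, hK₂, Pi.add_apply, Pi.smul_apply, smul_eq_mul, e0_zero, mul_one]
    simp only [map_add, map_smul, hF0, hF1, hF2, _root_.add_apply, FunLike.coe_smul,
      Pi.smul_apply, smul_eq_mul] at h1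
    linarith
  have hdu : ∀ (u : ℝ) (H : E), dt H = 0 → dt (u • H) = 0 := by
    intro u H hH
    have : dt (u • H) = u ^ 2 * dt H := by
      simp only [dt, Pi.smul_apply, smul_eq_mul]; ring
    rw [this, hH, mul_zero]
  -- the second derivatives of the mollified functions
  have hS : ∀ (n : ℕ) (H : E), dt H = 0 → ∀ v₀ v₁ v₂ : V,
      0 ≤ fderiv ℝ (fderiv ℝ (hm h n)) v₀ (P H) (P H)
        + (l₁ H) ^ 2 * fderiv ℝ (fderiv ℝ (hm K₁ n)) v₁ e0 e0
        + (l₂ H) ^ 2 * fderiv ℝ (fderiv ℝ (hm K₂ n)) v₂ e0 e0 + 2 * B H H := by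
    intro n H hH v₀ v₁ v₂
    have h1 := joint_second (hm_contDiff hc n) (hm_contDiff hK₁c n) (hm_contDiff hK₂c n)
      (w₀ := P H) (w₁ := l₁ H • e0) (w₂ := l₂ H • e0) (q := B H H) (by
        intro u t ht0 ht1 v₀ v₁ v₂
        refine joint_hm hc hK₁c hK₂c (fun v₀ v₁ v₂ => ?_) n v₀ v₁ v₂
        have h2 := hJ (u • H) (hdu u H hH) t ht0 ht1 v₀ v₁ v₂
        simp only [map_smul, FunLike.coe_smul, Pi.smul_apply, smul_eq_mul, smul_smul] at h2 ⊢
        linarith) v₀ v₁ v₂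
    simp only [map_smul, FunLike.coe_smul, Pi.smul_apply, smul_eq_mul] at h1
    linarith
  -- one of the linear forms does not vanish on the singular matrices
  have hne : ∀ l : E →L[ℝ] ℝ, (∃ F, l F = 1) → ∃ H : E, dt H = 0 ∧ l H ≠ 0 := by
    rintro l ⟨F, hF⟩
    by_contra hcon
    push Not at hcon
    have he : ∀ r m : Fin 2, l (eu r m) = 0 := by
      intro r m
      refine hcon _ ?_
      fin_cases r <;> fin_cases m <;> simp [dt, eu]
    rw [eu_expand F] at hF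
    simp only [map_add, map_smul, he, smul_zero, add_zero] at hF
    exact zero_ne_one hF
  -- one function
  refine QCtrig_limit (Wn := fun n F => hm h n (P F) + hm K₁ n (l₁ F • e0)
    + hm K₂ n (l₂ F • e0) + B F F) (fun n => ?_) (fun n => ?_) (fun F => ?_) (fun R => ?_)
  · set ρ₁ : ℝ → ℝ := fun x => fderiv ℝ (fderiv ℝ (hm K₁ n)) (x • e0) e0 e0 with hρ₁
    set ρ₂ : ℝ → ℝ := fun x => fderiv ℝ (fderiv ℝ (hm K₂ n)) (x • e0) e0 e0 with hρ₂
    have hbd₁ : BddBelow (range ρ₁) := by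
      obtain ⟨F, -, hF, -⟩ := hco 0 1 0
      obtain ⟨H, hH, hl⟩ := hne l₁ ⟨F, hF⟩
      refine ⟨-(fderiv ℝ (fderiv ℝ (hm h n)) 0 (P H) (P H)
        + (l₂ H) ^ 2 * fderiv ℝ (fderiv ℝ (hm K₂ n)) 0 e0 e0 + 2 * B H H) / (l₁ H) ^ 2, ?_⟩
      rintro y ⟨x, rfl⟩
      rw [div_le_iff₀ (by positivity)]
      have := hS n H hH 0 (x • e0) 0
      simp only [hρ₁]
      linarith
    have hbd₂ : BddBelow (range ρ₂) := by
      obtain ⟨F, -, -, hF⟩ := hco 0 0 1
      obtain ⟨H, hH, hl⟩ := hne l₂ ⟨F, hF⟩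
      refine ⟨-(fderiv ℝ (fderiv ℝ (hm h n)) 0 (P H) (P H)
        + (l₁ H) ^ 2 * fderiv ℝ (fderiv ℝ (hm K₁ n)) 0 e0 e0 + 2 * B H H) / (l₂ H) ^ 2, ?_⟩
      rintro y ⟨x, rfl⟩
      rw [div_le_iff₀ (by positivity)]
      have := hS n H hH 0 0 (x • e0)
      simp only [hρ₂]
      linarith
    set κ₁ : ℝ := ⨅ x, ρ₁ x with hκ₁
    set κ₂ : ℝ := ⨅ x, ρ₂ x with hκ₂
    have hκ₁le : ∀ x, κ₁ ≤ ρ₁ x := fun x => ciInf_le hbd₁ x
    have hκ₂le : ∀ x, κ₂ ≤ ρ₂ x := fun x => ciInf_le hbd₂ x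
    have hinf : ∀ (ρ : ℝ → ℝ) (a c : ℝ), (∀ x, 0 ≤ c + a ^ 2 * ρ x) →
        0 ≤ c + a ^ 2 * ⨅ x, ρ x := by
      intro ρ a c hh
      by_cases ha : a = 0
      · have := hh 0
        simpa [ha] using this
      · have ha2 : 0 < a ^ 2 := by positivity
        have : -c / a ^ 2 ≤ ⨅ x, ρ x := by
          refine le_ciInf fun x => ?_
          rw [div_le_iff₀ ha2]
          linarith [hh x]
        rw [div_le_iff₀ ha2] at this
        linarith
    have hκ : ∀ (p : V) (H : E), dt H = 0 → 0 ≤ fderiv ℝ (fderiv ℝ (hm h n)) p (P H) (P H)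
        + (l₁ H) ^ 2 * κ₁ + (l₂ H) ^ 2 * κ₂ + 2 * B H H := by
      intro p H hH
      have s1 : ∀ y, 0 ≤ (fderiv ℝ (fderiv ℝ (hm h n)) p (P H) (P H) + (l₂ H) ^ 2 * ρ₂ y
          + 2 * B H H) + (l₁ H) ^ 2 * κ₁ := by
        intro y
        refine hinf ρ₁ (l₁ H) _ fun x => ?_
        have := hS n H hH p (x • e0) (y • e0)
        simp only [hρ₁, hρ₂]
        linarith
      have s2 := hinf ρ₂ (l₂ H) (fderiv ℝ (fderiv ℝ (hm h n)) p (P H) (P H)
          + 2 * B H H + (l₁ H) ^ 2 * κ₁) fun y => by linarith [s1 y]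
      rw [← hκ₂] at s2
      linarith
    set B' : E →L[ℝ] E →L[ℝ] ℝ := B + (κ₁ / 2) • l₁.smulRight l₁ + (κ₂ / 2) • l₂.smulRight l₂
      with hB'
    have hB'a : ∀ F, B' F F = B F F + κ₁ / 2 * (l₁ F) ^ 2 + κ₂ / 2 * (l₂ F) ^ 2 := by
      intro F
      simp only [hB', _root_.add_apply, FunLike.coe_smul, Pi.smul_apply,
        ContinuousLinearMap.smulRight_apply, smul_eq_mul]
      ring
    have hA : QCtrig (fun F : E => hm h n (P F) + B' F F) := by
      refine hP _ (hm_contDiff hc n) B' fun p H hH => ?_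
      rw [hB'a]
      have := hκ p H hH
      linarith
    -- the convex part
    have hconv : ∀ (K : V → ℝ) (_ : Continuous K) (l : E →L[ℝ] ℝ) (κ : ℝ),
        (∀ x : ℝ, κ ≤ fderiv ℝ (fderiv ℝ (hm K n)) (x • e0) e0 e0) →
        QCtrig (fun F : E => hm K n (l F • e0) + (-(κ / 2) • l.smulRight l) F F) ∧
        Continuous (fun F : E => hm K n (l F • e0) + (-(κ / 2) • l.smulRight l) F F) := by
      intro K hK l κ hκ
      set Λ : E →L[ℝ] V := l.smulRight e0 with hΛ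
      have hΛa : ∀ F, Λ F = l F • e0 := fun F => rfl
      have hC := contDiff_WL (hm_contDiff hK n) Λ (-(κ / 2) • l.smulRight l)
      refine ⟨?_, hC.continuous⟩
      refine QCtrig_conv hC fun F H => ?_
      have es : fderiv ℝ (fderiv ℝ (fun F : E => hm K n (l F • e0)
          + (-(κ / 2) • l.smulRight l) F F)) F H H
          = fderiv ℝ (fderiv ℝ (hm K n)) (l F • e0) (l H • e0) (l H • e0)
            + 2 * (-(κ / 2) • l.smulRight l) H H :=
        second_WL (hm_contDiff hK n) Λ (-(κ / 2) • l.smulRight l) F H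
      rw [es]
      simp only [map_smul, FunLike.coe_smul, Pi.smul_apply, smul_eq_mul,
        ContinuousLinearMap.smulRight_apply]
      have h1 := hκ (l F)
      have h2 : 0 ≤ (l H) ^ 2 * (fderiv ℝ (fderiv ℝ (hm K n)) (l F • e0) e0 e0 - κ) :=
        mul_nonneg (sq_nonneg _) (by linarith)
      nlinarith
    obtain ⟨q1, c1⟩ := hconv K₁ hK₁c l₁ κ₁ hκ₁le
    obtain ⟨q2, c2⟩ := hconv K₂ hK₂c l₂ κ₂ hκ₂le
    have c0 : Continuous (fun F : E => hm h n (P F) + B' F F) :=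
      (contDiff_WL (hm_contDiff hc n) P B').continuous
    have hsum := (hA.add q1 c0 c1).add q2 (c0.add c1) c2
    have e : (fun F : E => hm h n (P F) + hm K₁ n (l₁ F • e0) + hm K₂ n (l₂ F • e0) + B F F)
        = fun F : E => (hm h n (P F) + B' F F
          + (hm K₁ n (l₁ F • e0) + (-(κ₁ / 2) • l₁.smulRight l₁) F F))
          + (hm K₂ n (l₂ F • e0) + (-(κ₂ / 2) • l₂.smulRight l₂) F F) := by
      funext F
      rw [hB'a]
      simp only [FunLike.coe_smul, Pi.smul_apply, ContinuousLinearMap.smulRight_apply,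
        smul_eq_mul]
      ring
    rw [e]
    exact hsum
  · have a0 := (hm_contDiff hc n).continuous.comp P.continuous
    have a1 : Continuous (fun F : E => hm K₁ n (l₁ F • e0)) :=
      (hm_contDiff hK₁c n).continuous.comp (l₁.continuous.smul continuous_const)
    have a2 : Continuous (fun F : E => hm K₂ n (l₂ F • e0)) :=
      (hm_contDiff hK₂c n).continuous.comp (l₂.continuous.smul continuous_const)
    exact ((a0.add a1).add a2).add (B.continuous.clm_apply continuous_id)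
  · have a0 := hm_tendsto hc (P F)
    have a1 := hm_tendsto hK₁c (l₁ F • e0)
    have a2 := hm_tendsto hK₂c (l₂ F • e0)
    rw [hKe₁] at a1
    rw [hKe₂] at a2
    exact ((a0.add a1).add a2).add tendsto_const_nhds
  · have hb : ∀ (f : V → ℝ) (_ : Continuous f) (Λ : E →L[ℝ] V), ∃ C : ℝ, ∀ (n : ℕ) (F : E),
        ‖F‖ ≤ R → |hm f n (Λ F)| ≤ C := by
      intro f hf Λ
      obtain ⟨C, hC⟩ := (isCompact_closedBall (0 : V)
        (‖Λ‖ * R + 1)).exists_bound_of_continuousOn hf.continuousOn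
      refine ⟨C, fun n F hF => hm_bound hf (fun x hx => ?_) n (R := ‖Λ‖ * R) ?_⟩
      · have := hC x (by rwa [mem_closedBall_zero_iff])
        rwa [Real.norm_eq_abs] at this
      · exact (Λ.le_opNorm F).trans (mul_le_mul_of_nonneg_left hF (norm_nonneg _))
    obtain ⟨C0, hC0⟩ := hb h hc P
    obtain ⟨C1, hC1⟩ := hb K₁ hK₁c (l₁.smulRight e0)
    obtain ⟨C2, hC2⟩ := hb K₂ hK₂c (l₂.smulRight e0)
    have hBc : Continuous (fun F : E => B F F) := B.continuous.clm_apply continuous_id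
    obtain ⟨C3, hC3⟩ := (isCompact_closedBall (0 : E) R).exists_bound_of_continuousOn
      hBc.continuousOn
    refine ⟨C0 + C1 + C2 + C3, fun n F hF => ?_⟩
    have b0 := hC0 n F hF
    have b1 : |hm K₁ n (l₁ F • e0)| ≤ C1 := hC1 n F hF
    have b2 : |hm K₂ n (l₂ F • e0)| ≤ C2 := hC2 n F hF
    have b3 : |B F F| ≤ C3 := by
      have := hC3 F (by rwa [mem_closedBall_zero_iff])
      rwa [Real.norm_eq_abs] at this
    exact (abs_add_le _ _).trans (add_le_add ((abs_add_le _ _).trans (add_le_add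
      ((abs_add_le _ _).trans (add_le_add b0 b1)) b2)) b3)

end Pool.Agent.V5helper40.MQR
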