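import Pool.Agent.V5helper40.MQR.Ext

/-!
# The theorems for matrices
-/

set_option autoImplicit false

open MeasureTheory Set Filter Topology Matrix

namespace Pool.Agent.V5helper40.MQR

open Pool.Agent.W779.Morrey hiding en en_apply
open Pool.Agent.N555.MQ

/-- the general theorem for matrices -/
theorem fin_gen {P : E →L[ℝ] V} (hP : Good P) (l₁ l₂ : E →L[ℝ] ℝ)
    (hsurj : Function.Surjective fun F : E => (P F, l₁ F, l₂ F))
    (h : V → ℝ) (k₁ k₂ : ℝ → ℝ) (B : E →L[ℝ] E →L[ℝ] ℝ)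
    {W : Matrix (Fin 2) (Fin 2) ℝ → ℝ}
    (hW : ∀ F : E, W (of F) = h (P F) + k₁ (l₁ F) + k₂ (l₂ F) + B F F)
    (hroc : Pool.Agent.Helper188.Morrey.RankOneConvex W) : QC W := by
  have hcM : Continuous W := hroc.continuous
  have hc : Continuous fun F : E => W (of F) := hcM
  -- continuous right inverse
  set J : E →ₗ[ℝ] V × ℝ × ℝ := P.toLinearMap.prod (l₁.toLinearMap.prod l₂.toLinearMap) with hJ
  have hJs : Function.Surjective J := hsurj
  obtain ⟨Z, hZ⟩ := J.exists_rightInverse_of_surjective (LinearMap.range_eq_top.2 hJs)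
  have hZc : Continuous Z := Z.continuous_of_finiteDimensional
  have hJZ : ∀ z, J (Z z) = z := fun z => LinearMap.congr_fun hZ z
  have hz1 : ∀ z, P (Z z) = z.1 := fun z => congrArg Prod.fst (hJZ z)
  have hz2 : ∀ z, l₁ (Z z) = z.2.1 := fun z => congrArg (fun y => y.2.1) (hJZ z)
  have hz3 : ∀ z, l₂ (Z z) = z.2.2 := fun z => congrArg (fun y => y.2.2) (hJZ z)
  have hBc : Continuous (fun F : E => B F F) := B.continuous.clm_apply continuous_id
  have hU : Continuous (fun z : V × ℝ × ℝ => h z.1 + k₁ z.2.1 + k₂ z.2.2) := by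
    have e : (fun z : V × ℝ × ℝ => h z.1 + k₁ z.2.1 + k₂ z.2.2)
        = fun z => W (of (Z z)) - B (Z z) (Z z) := by
      funext z
      rw [hW, hz1, hz2, hz3]
      ring
    rw [e]
    exact (hc.comp hZc).sub (hBc.comp hZc)
  have hhc : Continuous h := by
    have e : h = fun v => (h v + k₁ 0 + k₂ 0) - (k₁ 0 + k₂ 0) := by funext v; ring
    rw [e]
    exact (hU.comp (continuous_id.prodMk
      (continuous_const (y := ((0 : ℝ), (0 : ℝ)))))).sub continuous_const
  have hk₁c : Continuous k₁ := by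
    have e : k₁ = fun s => (h 0 + k₁ s + k₂ 0) - (h 0 + k₂ 0) := by funext v; ring
    rw [e]
    exact (hU.comp ((continuous_const (y := (0 : V))).prodMk
      (continuous_id.prodMk (continuous_const (y := (0 : ℝ)))))).sub continuous_const
  have hk₂c : Continuous k₂ := by
    have e : k₂ = fun s => (h 0 + k₁ 0 + k₂ s) - (h 0 + k₁ 0) := by funext v; ring
    rw [e]
    exact (hU.comp ((continuous_const (y := (0 : V))).prodMk
      ((continuous_const (y := (0 : ℝ))).prodMk continuous_id))).sub continuous_const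
  refine QC_of_trig hc ?_
  have e : (fun F : E => W (of F)) = fun F : E => h (P F) + k₁ (l₁ F) + k₂ (l₂ F) + B F F :=
    funext hW
  rw [e]
  refine ext_main hP (fun v s₁ s₂ => ?_) hhc hk₁c hk₂c B fun F H hH t ht0 ht1 => ?_
  · obtain ⟨F, hF⟩ := hsurj (v, s₁, s₂)
    exact ⟨F, congrArg Prod.fst hF, congrArg (fun y => y.2.1) hF, congrArg (fun y => y.2.2) hF⟩
  · have h1 := hroc.seg (of F) (of H) (by rw [det_of]; exact hH) ht0 ht1
    have e1 : W (of F + t • of H) = W (of (F + t • H)) := rfl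
    have e2 : W (of F + of H) = W (of (F + H)) := rfl
    rw [e1, e2, hW, hW, hW] at h1
    exact h1

/-- the bilinear form of a quadratic form -/
theorem exists_B (Q : QuadraticForm ℝ (Matrix (Fin 2) (Fin 2) ℝ)) :
    ∃ B : E →L[ℝ] E →L[ℝ] ℝ, ∀ F : E, B F F = Q (of F) := by
  set oL : E →ₗ[ℝ] Matrix (Fin 2) (Fin 2) ℝ :=
    (Matrix.ofLinearEquiv ℝ : E ≃ₗ[ℝ] Matrix (Fin 2) (Fin 2) ℝ).toLinearMap with hoL
  exact ⟨LinearMap.toContinuousBilinearMap
    ((QuadraticMap.associated Q : LinearMap.BilinForm ℝ (Matrix (Fin 2) (Fin 2) ℝ)).compl₁₂ oL oL),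
    fun F => QuadraticMap.associated_eq_self_apply ℝ Q (of F)⟩

/-- a linear form on matrices as a continuous linear form on `E` -/
theorem exists_l (l : Matrix (Fin 2) (Fin 2) ℝ →ₗ[ℝ] ℝ) :
    ∃ l' : E →L[ℝ] ℝ, ∀ F : E, l' F = l (of F) := by
  set oL : E →ₗ[ℝ] Matrix (Fin 2) (Fin 2) ℝ :=
    (Matrix.ofLinearEquiv ℝ : E ≃ₗ[ℝ] Matrix (Fin 2) (Fin 2) ℝ).toLinearMap with hoL
  exact ⟨LinearMap.toContinuousLinearMap (E := E) (F' := ℝ) (l ∘ₗ oL), fun F => rfl⟩

/-- injectivity gives surjectivity -/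
theorem surj_of_inj (P : E →L[ℝ] V) (l₁ l₂ : E →L[ℝ] ℝ)
    (hinj : ∀ F : E, P F = 0 → l₁ F = 0 → l₂ F = 0 → F = 0) :
    Function.Surjective fun F : E => (P F, l₁ F, l₂ F) := by
  set J : E →ₗ[ℝ] V × ℝ × ℝ := P.toLinearMap.prod (l₁.toLinearMap.prod l₂.toLinearMap) with hJ
  have hi : Function.Injective J := by
    rw [← LinearMap.ker_eq_bot, LinearMap.ker_eq_bot']
    intro F hF
    exact hinj F (congrArg Prod.fst hF) (congrArg (fun y => y.2.1) hF)
      (congrArg (fun y => y.2.2) hF)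
  have hd : Module.finrank ℝ E = Module.finrank ℝ (V × ℝ × ℝ) := by
    simp [Module.finrank_prod, Module.finrank_pi_fintype]
  exact (LinearMap.injective_iff_surjective_of_finrank_eq_finrank hd).1 hi

/-- one row -/
theorem fin_row2 (α : V) (l₁ l₂ : Matrix (Fin 2) (Fin 2) ℝ →ₗ[ℝ] ℝ) (h : V → ℝ) (k₁ k₂ : ℝ → ℝ)
    (Q : QuadraticForm ℝ (Matrix (Fin 2) (Fin 2) ℝ))
    (hinj : ∀ F : Matrix (Fin 2) (Fin 2) ℝ, α ᵥ* F = 0 → l₁ F = 0 → l₂ F = 0 → F = 0)
    (hroc : Pool.Agent.Helper188.Morrey.RankOneConvex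
      fun F => h (α ᵥ* F) + k₁ (l₁ F) + k₂ (l₂ F) + Q F) :
    QC fun F => h (α ᵥ* F) + k₁ (l₁ F) + k₂ (l₂ F) + Q F := by
  obtain ⟨B, hB⟩ := exists_B Q
  obtain ⟨m₁, hm₁⟩ := exists_l l₁
  obtain ⟨m₂, hm₂⟩ := exists_l l₂
  set M : E := ![![α 0, α 1], ![-α 1, α 0]] with hM
  have hPa : ∀ F : E, rowL.comp (lm M) F = α ᵥ* of F := by
    intro F
    ext l
    change lm M F 0 l = _
    rw [lm_apply]
    simp [hM, Matrix.vecMul, dotProduct, Fin.sum_univ_two]
  have hs := surj_of_inj (rowL.comp (lm M)) m₁ m₂ (fun F h0 h1 h2 => by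
    rw [hPa] at h0
    rw [hm₁] at h1
    rw [hm₂] at h2
    exact hinj (of F) h0 h1 h2)
  have hα : α ≠ 0 := by
    intro h0
    obtain ⟨F, hF⟩ := hs (![1, 0], 0, 0)
    have h1 : rowL.comp (lm M) F = ![1, 0] := congrArg Prod.fst hF
    rw [hPa, h0, Matrix.zero_vecMul] at h1
    have := congrFun h1 0
    simp at this
  have hn := (pos_sq hα).ne'
  set n := α 0 ^ 2 + α 1 ^ 2 with hndef
  have hg : Good (rowL.comp (lm M)) := by
    refine good_row (N := ![![α 0 / n, -α 1 / n], ![α 1 / n, α 0 / n]]) ?_ ?_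
    · intro F
      ext r l
      rw [lm_apply, lm_apply, lm_apply]
      fin_cases r
      · simp only [hM, Fin.zero_eta, Matrix.cons_val_zero, Matrix.cons_val_one,
          Matrix.cons_val_fin_one]
        field_simp
        rw [hndef]
        ring
      · simp only [hM, Fin.mk_one, Matrix.cons_val_zero, Matrix.cons_val_one,
          Matrix.cons_val_fin_one]
        field_simp
        rw [hndef]
        ring
    · intro F
      ext r l
      rw [lm_apply, lm_apply, lm_apply]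
      fin_cases r
      · simp only [hM, Fin.zero_eta, Matrix.cons_val_zero, Matrix.cons_val_one,
          Matrix.cons_val_fin_one]
        field_simp
        rw [hndef]
        ring
      · simp only [hM, Fin.mk_one, Matrix.cons_val_zero, Matrix.cons_val_one,
          Matrix.cons_val_fin_one]
        field_simp
        rw [hndef]
        ring
  refine fin_gen hg m₁ m₂ hs h k₁ k₂ B (fun F => ?_) hroc
  rw [hPa, hm₁, hm₂, hB]

/-- one column -/
theorem fin_col2 (β : V) (l₁ l₂ : Matrix (Fin 2) (Fin 2) ℝ →ₗ[ℝ] ℝ) (h : V → ℝ) (k₁ k₂ : ℝ → ℝ)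
    (Q : QuadraticForm ℝ (Matrix (Fin 2) (Fin 2) ℝ))
    (hinj : ∀ F : Matrix (Fin 2) (Fin 2) ℝ, F *ᵥ β = 0 → l₁ F = 0 → l₂ F = 0 → F = 0)
    (hroc : Pool.Agent.Helper188.Morrey.RankOneConvex
      fun F => h (F *ᵥ β) + k₁ (l₁ F) + k₂ (l₂ F) + Q F) :
    QC fun F => h (F *ᵥ β) + k₁ (l₁ F) + k₂ (l₂ F) + Q F := by
  obtain ⟨B, hB⟩ := exists_B Q
  obtain ⟨m₁, hm₁⟩ := exists_l l₁
  obtain ⟨m₂, hm₂⟩ := exists_l l₂
  have hPa : ∀ F : E, colL β F = of F *ᵥ β := by
    intro F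
    rw [colL_apply, of_mulVec]
  have hs := surj_of_inj (colL β) m₁ m₂ (fun F h0 h1 h2 => by
    rw [hPa] at h0
    rw [hm₁] at h1
    rw [hm₂] at h2
    exact hinj (of F) h0 h1 h2)
  have hβ : β ≠ 0 := by
    intro h0
    obtain ⟨F, hF⟩ := hs (![1, 0], 0, 0)
    have h1 : colL β F = ![1, 0] := congrArg Prod.fst hF
    rw [hPa, h0, Matrix.mulVec_zero] at h1
    have := congrFun h1 0
    simp at this
  refine fin_gen (good_col hβ) m₁ m₂ hs h k₁ k₂ B (fun F => ?_) hroc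
  rw [hPa, hm₁, hm₂, hB]

end Pool.Agent.V5helper40.MQR
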