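import Pool.Agent.N555.MQ.Fin2

/-!
# Monotonicity of the energy along the flow `∂ₜ u = (β · ∇)² u + (γ · ∇)² u`

The criterion: the second derivatives of `W` in the two directions, plus a multiple of the
determinant of the second derivatives of the first component which depends on the gradient of the
first component, plus null forms with constant coefficients, is nonnegative.
-/

set_option autoImplicit false

open MeasureTheory Set Filter Topology

namespace Pool.Agent.V5helper40.MQR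

open Pool.Agent.W779.Morrey Pool.Agent.N555.MQ

section fam

variable {ι : Type*} [Fintype ι]

/-- the damping rate -/
noncomputable def rt (β γ : V) (k : ι → Fin 2 → ℤ) (i : ι) : ℝ := fr β k i ^ 2 + fr γ k i ^ 2

/-- the coefficients at time `t` -/
noncomputable def dn (β γ : V) (k : ι → Fin 2 → ℤ) (t : ℝ) (A : ι → E) : ι → E :=
  fun i => Real.exp (-(t * rt β γ k i)) • A i

theorem hasDerivAt_dn (β γ : V) (k : ι → Fin 2 → ℤ) (A B : ι → E) (t : ℝ) (x : V) :
    HasDerivAt (fun t => Fam k (dn β γ k t A) (dn β γ k t B) 1 x)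
      (Fam k (fun i => -(rt β γ k i) • dn β γ k t A i)
        (fun i => -(rt β γ k i) • dn β γ k t B i) 1 x) t := by
  simp only [Fam_one]
  refine HasDerivAt.fun_sum fun i _ => ?_
  have h0 : HasDerivAt (fun t : ℝ => Real.exp (-(t * rt β γ k i)))
      (Real.exp (-(t * rt β γ k i)) * (-(1 * rt β γ k i))) t :=
    (((hasDerivAt_id t).mul_const (rt β γ k i)).neg).exp
  have h1 := (h0.smul_const (A i)).const_smul (Real.cos (ph (k i) x))
  have h2 := (h0.smul_const (B i)).const_smul (Real.sin (ph (k i) x))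
  refine (h1.add h2).congr_deriv ?_
  ext r l
  simp only [tm, dn, Pi.add_apply, Pi.smul_apply, smul_eq_mul]
  ring

/-- the second derivative in the direction `β` -/
theorem heat2 (β : V) (k : ι → Fin 2 → ℤ) (A B : ι → E) (x : V) :
    Fam k (ml β k fun i => - ml β k A i) (fun i => - ml β k (ml β k B) i) 1 x
      = Fam k (fun i => -(fr β k i ^ 2) • A i) (fun i => -(fr β k i ^ 2) • B i) 1 x := by
  simp only [Fam_one]
  refine Finset.sum_congr rfl fun i _ => ?_
  ext r l
  simp only [tm, ml, Pi.add_apply, Pi.smul_apply, Pi.neg_apply, smul_eq_mul]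
  ring

theorem heat_sum (β γ : V) (k : ι → Fin 2 → ℤ) (A B : ι → E) (x : V) :
    Fam k (fun i => -(fr β k i ^ 2) • A i) (fun i => -(fr β k i ^ 2) • B i) 1 x
      + Fam k (fun i => -(fr γ k i ^ 2) • A i) (fun i => -(fr γ k i ^ 2) • B i) 1 x
      = Fam k (fun i => -(rt β γ k i) • A i) (fun i => -(rt β γ k i) • B i) 1 x := by
  simp only [Fam_one, ← Finset.sum_add_distrib]
  refine Finset.sum_congr rfl fun i _ => ?_
  ext r l
  simp only [tm, rt, Pi.add_apply, Pi.smul_apply, smul_eq_mul]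
  ring

omit [Fintype ι] in
theorem continuous_dn (β γ : V) (k : ι → Fin 2 → ℤ) (A : ι → E) (i : ι) :
    Continuous (fun t => dn β γ k t A i) := by
  unfold dn
  fun_prop

/-- the dissipation of the flow in one direction, for a trigonometric polynomial -/
theorem dissip_fam {W : E → ℝ} (hW : ContDiff ℝ 2 W) (β : V) (F₀ : E) (k : ι → Fin 2 → ℤ)
    (A B : ι → E) :
    (∫ x in Icc (0 : V) 1, fderiv ℝ (fderiv ℝ W) (F₀ + Fam k A B 1 x)
        (β 0 • Fam k (dA k B 0) (dB k A 0) 1 x + β 1 • Fam k (dA k B 1) (dB k A 1) 1 x)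
        (β 0 • Fam k (dA k B 0) (dB k A 0) 1 x + β 1 • Fam k (dA k B 1) (dB k A 1) 1 x))
    + ∫ x in Icc (0 : V) 1, fderiv ℝ W (F₀ + Fam k A B 1 x)
        (Fam k (fun i => -(fr β k i ^ 2) • A i) (fun i => -(fr β k i ^ 2) • B i) 1 x) = 0 := by
  have hP1 : ContDiff ℝ 1 (fderiv ℝ W) := hW.fderiv_right (by norm_num)
  have hHc : Continuous (fderiv ℝ (fderiv ℝ W)) := hP1.continuous_fderiv (by norm_num)
  have hFc : Continuous (fun x => F₀ + Fam k A B 1 x) :=
    continuous_const.add (continuous_Fam k A B 1)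
  have hdir : ∀ x, β 0 • Fam k (dA k B 0) (dB k A 0) 1 x + β 1 • Fam k (dA k B 1) (dB k A 1) 1 x
      = Fam k (ml β k B) (fun i => - ml β k A i) 1 x := fun x => dir_Fam β k A B x
  have hdis := dissip hW β (fun x => F₀ + Fam k A B 1 x)
    (fun j => Fam k (dA k B j) (dB k A j) 1)
    (fun l => Fam k (dA k (fun i => - ml β k A i) l) (dB k (ml β k B) l) 1)
    (fun x => (hasFDerivAt_Fam k A B 1 x).const_add F₀)
    (fun x => by
      simp only [hdir]
      exact hasFDerivAt_Fam k (ml β k B) (fun i => - ml β k A i) 1 x)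
    (fun j => continuous_Fam k _ _ 1) (fun l => continuous_Fam k _ _ 1)
    (fun i x => by rw [Fam_periodic]) (fun j i x => by rw [Fam_periodic])
  simp only [hdir] at hdis ⊢
  have hdir2 : ∀ x, β 0 • Fam k (dA k (fun i => - ml β k A i) 0) (dB k (ml β k B) 0) 1 x
      + β 1 • Fam k (dA k (fun i => - ml β k A i) 1) (dB k (ml β k B) 1) 1 x
      = Fam k (fun i => -(fr β k i ^ 2) • A i) (fun i => -(fr β k i ^ 2) • B i) 1 x := by
    intro x
    rw [dir_Fam β k (ml β k B) (fun i => - ml β k A i) x]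
    exact heat2 β k A B x
  simp only [hdir2] at hdis
  have hi1 : IntegrableOn (fun x => fderiv ℝ (fderiv ℝ W) (F₀ + Fam k A B 1 x)
      (Fam k (ml β k B) (fun i => - ml β k A i) 1 x)
      (Fam k (ml β k B) (fun i => - ml β k A i) 1 x)) (Icc (0 : V) 1) := by
    refine Continuous.integrableOn_Icc ?_
    exact ((hHc.comp hFc).clm_apply (continuous_Fam k _ _ 1)).clm_apply (continuous_Fam k _ _ 1)
  have hi2 : IntegrableOn (fun x => fderiv ℝ W (F₀ + Fam k A B 1 x)
      (Fam k (fun i => -(fr β k i ^ 2) • A i) (fun i => -(fr β k i ^ 2) • B i) 1 x))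
      (Icc (0 : V) 1) := by
    refine Continuous.integrableOn_Icc ?_
    exact (hP1.continuous.comp hFc).clm_apply (continuous_Fam k _ _ 1)
  rw [integral_add hi1 hi2] at hdis
  exact hdis

/-- the null form of two components of the gradient -/
theorem null_const (k : ι → Fin 2 → ℤ) (A B : ι → E) (r l s m : Fin 2) :
    ∫ x in Icc (0 : V) 1, (Fam k (dA k B 0) (dB k A 0) 1 x r l
        * Fam k (dA k B 1) (dB k A 1) 1 x s m
      - Fam k (dA k B 1) (dB k A 1) 1 x r l * Fam k (dA k B 0) (dB k A 0) 1 x s m) = 0 := by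
  refine null0 (fun x => Fam k A B 1 x r l)
    (fun j x => Fam k (dA k B j) (dB k A j) 1 x r l)
    (fun j x => Fam k (dA k B j) (dB k A j) 1 x s m)
    (fun j n x => Fam k (dA k (dB k A j) n) (dB k (dA k B j) n) 1 x s m)
    (fun x => comp_deriv (hasFDerivAt_Fam k A B 1 x) r l)
    (fun j => (continuous_apply l).comp ((continuous_apply r).comp (continuous_Fam k _ _ 1)))
    (fun j x => comp_deriv (hasFDerivAt_Fam k (dA k B j) (dB k A j) 1 x) s m)
    (fun j n => (continuous_apply m).comp ((continuous_apply s).comp (continuous_Fam k _ _ 1)))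
    (fun x => ?_) (fun i x => by rw [Fam_periodic]) (fun j i x => by rw [Fam_periodic])
  simp only [Fam_one, Finset.sum_apply]
  refine Finset.sum_congr rfl fun i _ => ?_
  simp only [tm, dA, dB, Pi.add_apply, Pi.smul_apply, Pi.neg_apply, smul_eq_mul]
  ring

/-- the gradient of the first component is twice continuously differentiable -/
theorem pmap_row (F₀ : E) (k : ι → Fin 2 → ℤ) (A B : ι → E) :
    PMap (fun x => (F₀ + Fam k A B 1 x) 0)
      (fun r l x => Fam k (dA k B l) (dB k A l) 1 x 0 r)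
      (fun r l m x => Fam k (dA k (dB k A l) m) (dB k (dA k B l) m) 1 x 0 r) where
  d1 := by
    intro r x
    exact comp_deriv ((hasFDerivAt_Fam k A B 1 x).const_add F₀) 0 r
  d2 := by
    intro r l x
    exact comp_deriv (hasFDerivAt_Fam k (dA k B l) (dB k A l) 1 x) 0 r
  c2 := by
    intro r l m
    exact (continuous_apply r).comp ((continuous_apply (0 : Fin 2)).comp (continuous_Fam k _ _ 1))
  symm := by
    intro r x
    simp only [Fam_one, Finset.sum_apply]
    refine Finset.sum_congr rfl fun i _ => ?_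
    simp only [tm, dA, dB, Pi.add_apply, Pi.smul_apply, Pi.neg_apply, smul_eq_mul]
    ring
  pp := by
    intro i x
    simp only [Fam_periodic]
  pJ := by
    intro r l i x
    simp only [Fam_periodic]

/-- the null form of two derivatives of the gradient, with four indices -/
def nf (G : Fin 2 → E) (r l s m : Fin 2) : ℝ := G 0 r l * G 1 s m - G 1 r l * G 0 s m

/-- the criterion -/
def Crit (W : E → ℝ) (β γ : V) (ℓ : V → ℝ) (C : Fin 2 → Fin 2 → Fin 2 → Fin 2 → ℝ) : Prop :=
  ∀ (F : E) (G : Fin 2 → E), (∀ r, G 0 r 1 = G 1 r 0) →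
    0 ≤ fderiv ℝ (fderiv ℝ W) F (β 0 • G 0 + β 1 • G 1) (β 0 • G 0 + β 1 • G 1)
      + fderiv ℝ (fderiv ℝ W) F (γ 0 • G 0 + γ 1 • G 1) (γ 0 • G 0 + γ 1 • G 1)
      + ℓ (F 0) * nf G 0 0 0 1
      + ∑ r, ∑ l, ∑ s, ∑ m, C r l s m * nf G r l s m

/-- one step: the energy decreases -/
theorem step_neg2 {W : E → ℝ} (hW : ContDiff ℝ 2 W) (β γ : V) {ℓ : V → ℝ} (hℓ : Measurable ℓ)
    (hb : ∀ R : ℝ, ∃ C : ℝ, ∀ v : V, ‖v‖ ≤ R → |ℓ v| ≤ C)
    {C : Fin 2 → Fin 2 → Fin 2 → Fin 2 → ℝ} (hcond : Crit W β γ ℓ C)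
    (F₀ : E) (k : ι → Fin 2 → ℤ) (c d : ι → V) (t : ℝ) :
    ∫ x in Icc (0 : V) 1, fderiv ℝ W
      (F₀ + Fam k (dn β γ k t (grk k c)) (dn β γ k t (grk k d)) 1 x)
      (Fam k (fun i => -(rt β γ k i) • dn β γ k t (grk k c) i)
        (fun i => -(rt β γ k i) • dn β γ k t (grk k d) i) 1 x) ≤ 0 := by
  set A := dn β γ k t (grk k c) with hA
  set B := dn β γ k t (grk k d) with hB
  have hP1 : ContDiff ℝ 1 (fderiv ℝ W) := hW.fderiv_right (by norm_num)
  have hHc : Continuous (fderiv ℝ (fderiv ℝ W)) := hP1.continuous_fderiv (by norm_num)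
  have hFc : Continuous (fun x => F₀ + Fam k A B 1 x) :=
    continuous_const.add (continuous_Fam k A B 1)
  have hPM := pmap_row F₀ k A B
  have hd1 := dissip_fam hW β F₀ k A B
  have hd2 := dissip_fam hW γ F₀ k A B
  -- the derivative in time
  have hi2 : ∀ δ : V, IntegrableOn (fun x => fderiv ℝ W (F₀ + Fam k A B 1 x)
      (Fam k (fun i => -(fr δ k i ^ 2) • A i) (fun i => -(fr δ k i ^ 2) • B i) 1 x))
      (Icc (0 : V) 1) := by
    intro δ
    refine Continuous.integrableOn_Icc ?_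
    exact (hP1.continuous.comp hFc).clm_apply (continuous_Fam k _ _ 1)
  have htime : ∫ x in Icc (0 : V) 1, fderiv ℝ W (F₀ + Fam k A B 1 x)
      (Fam k (fun i => -(rt β γ k i) • A i) (fun i => -(rt β γ k i) • B i) 1 x)
      = (∫ x in Icc (0 : V) 1, fderiv ℝ W (F₀ + Fam k A B 1 x)
        (Fam k (fun i => -(fr β k i ^ 2) • A i) (fun i => -(fr β k i ^ 2) • B i) 1 x))
      + ∫ x in Icc (0 : V) 1, fderiv ℝ W (F₀ + Fam k A B 1 x)
        (Fam k (fun i => -(fr γ k i ^ 2) • A i) (fun i => -(fr γ k i ^ 2) • B i) 1 x) := by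
    rw [← integral_add (hi2 β) (hi2 γ)]
    refine integral_congr_ae (Eventually.of_forall fun x => ?_)
    simp only
    rw [← map_add, heat_sum]
  rw [htime]
  -- the null Lagrangian
  have hpc := hPM.contp
  obtain ⟨R, hR⟩ := (isCompact_Icc (a := (0 : V)) (b := 1)).exists_bound_of_continuousOn
    hpc.continuousOn
  obtain ⟨K, hK⟩ := hb R
  have hbd : ∀ x, |(fun v => if ‖v‖ ≤ R then ℓ v else 0)
      ((F₀ + Fam k A B 1 x) 0)| ≤ |K| := by
    intro x
    simp only
    split_ifs with h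
    · exact (hK _ h).trans (le_abs_self K)
    · simp
  have hmeas : Measurable (fun v : V => if ‖v‖ ≤ R then ℓ v else 0) :=
    Measurable.ite (measurableSet_le measurable_norm measurable_const) hℓ measurable_const
  have hnull := null2 hPM hmeas |K| hbd
  set G : V → Fin 2 → E := fun x j => Fam k (dA k B j) (dB k A j) 1 x with hG
  have hGc : ∀ j, Continuous (fun x => G x j) := fun j => continuous_Fam k _ _ 1
  have hnfc : ∀ r l s m, Continuous (fun x => nf (G x) r l s m) := by
    intro r l s m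
    have hc : ∀ j r l, Continuous (fun x => G x j r l) := fun j r l =>
      (continuous_apply l).comp ((continuous_apply r).comp (hGc j))
    exact ((hc 0 r l).mul (hc 1 s m)).sub ((hc 1 r l).mul (hc 0 s m))
  have hdJ : ∀ x, dJ (fun r l x => Fam k (dA k B l) (dB k A l) 1 x 0 r) x = nf (G x) 0 0 0 1 :=
    fun x => rfl
  have hnull2 : ∫ x in Icc (0 : V) 1, ℓ ((F₀ + Fam k A B 1 x) 0) * nf (G x) 0 0 0 1 = 0 := by
    rw [← hnull]
    refine setIntegral_congr_fun measurableSet_Icc fun x hx => ?_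
    simp only [hdJ]
    rw [if_pos (hR x hx)]
  have hi3 : IntegrableOn (fun x => ℓ ((F₀ + Fam k A B 1 x) 0) * nf (G x) 0 0 0 1)
      (Icc (0 : V) 1) := by
    have h1 : IntegrableOn (fun x => (fun v => if ‖v‖ ≤ R then ℓ v else 0)
        ((F₀ + Fam k A B 1 x) 0) * nf (G x) 0 0 0 1) (Icc (0 : V) 1) := by
      refine Integrable.bdd_mul (c := |K|) (hnfc 0 0 0 1).integrableOn_Icc ?_
        (Eventually.of_forall hbd)
      exact (hmeas.comp hpc.measurable).aestronglyMeasurable
    refine h1.congr_fun (fun x hx => ?_) measurableSet_Icc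
    simp only
    rw [if_pos (hR x hx)]
  have hiC : ∀ r l s m, IntegrableOn (fun x => C r l s m * nf (G x) r l s m) (Icc (0 : V) 1) :=
    fun r l s m => (continuous_const.mul (hnfc r l s m)).integrableOn_Icc
  have hnull3 : ∫ x in Icc (0 : V) 1, (∑ r, ∑ l, ∑ s, ∑ m, C r l s m * nf (G x) r l s m) = 0 := by
    have h0 : ∀ r l s m, ∫ x in Icc (0 : V) 1, C r l s m * nf (G x) r l s m = 0 := by
      intro r l s m
      rw [integral_const_mul]
      have := null_const k A B r l s m
      have e : ∫ x in Icc (0 : V) 1, nf (G x) r l s m = 0 := this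
      rw [e, mul_zero]
    have hI1 : ∀ r l s, IntegrableOn (fun x => ∑ m, C r l s m * nf (G x) r l s m)
        (Icc (0 : V) 1) := fun r l s => integrable_finsetSum _ fun m _ => hiC r l s m
    have hI2 : ∀ r l, IntegrableOn (fun x => ∑ s, ∑ m, C r l s m * nf (G x) r l s m)
        (Icc (0 : V) 1) := fun r l => integrable_finsetSum _ fun s _ => hI1 r l s
    have hI3 : ∀ r, IntegrableOn (fun x => ∑ l, ∑ s, ∑ m, C r l s m * nf (G x) r l s m)
        (Icc (0 : V) 1) := fun r => integrable_finsetSum _ fun l _ => hI2 r l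
    rw [integral_finsetSum _ fun r _ => hI3 r]
    refine Finset.sum_eq_zero fun r _ => ?_
    rw [integral_finsetSum _ fun l _ => hI2 r l]
    refine Finset.sum_eq_zero fun l _ => ?_
    rw [integral_finsetSum _ fun s _ => hI1 r l s]
    refine Finset.sum_eq_zero fun s _ => ?_
    rw [integral_finsetSum _ fun m _ => hiC r l s m]
    exact Finset.sum_eq_zero fun m _ => h0 r l s m
  have hsc : Continuous (fun x => ∑ r, ∑ l, ∑ s, ∑ m, C r l s m * nf (G x) r l s m) := by
    refine continuous_finsetSum _ fun r _ => continuous_finsetSum _ fun l _ =>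
      continuous_finsetSum _ fun s _ => continuous_finsetSum _ fun m _ => ?_
    exact continuous_const.mul (hnfc r l s m)
  have hdc : ∀ δ : V, Continuous (fun x => fderiv ℝ (fderiv ℝ W) (F₀ + Fam k A B 1 x)
      (δ 0 • G x 0 + δ 1 • G x 1) (δ 0 • G x 0 + δ 1 • G x 1)) := by
    intro δ
    have hg : Continuous (fun x => δ 0 • G x 0 + δ 1 • G x 1) :=
      ((hGc 0).const_smul (δ 0)).add ((hGc 1).const_smul (δ 1))
    exact ((hHc.comp hFc).clm_apply hg).clm_apply hg
  have hnn : 0 ≤ ∫ x in Icc (0 : V) 1, (fderiv ℝ (fderiv ℝ W) (F₀ + Fam k A B 1 x)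
      (β 0 • G x 0 + β 1 • G x 1) (β 0 • G x 0 + β 1 • G x 1)
      + fderiv ℝ (fderiv ℝ W) (F₀ + Fam k A B 1 x)
      (γ 0 • G x 0 + γ 1 • G x 1) (γ 0 • G x 0 + γ 1 • G x 1)
      + ℓ ((F₀ + Fam k A B 1 x) 0) * nf (G x) 0 0 0 1
      + ∑ r, ∑ l, ∑ s, ∑ m, C r l s m * nf (G x) r l s m) := by
    refine integral_nonneg fun x => hcond _ (G x) fun r => ?_
    have hk : ∀ (e : ι → V) (i : ι), k i 0 * dn β γ k t (grk k e) i r 1
        = k i 1 * dn β γ k t (grk k e) i r 0 := by
      intro e i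
      simp only [dn, grk, Pi.smul_apply, smul_eq_mul]
      ring
    simp only [hG, Fam_one, Finset.sum_apply]
    refine Finset.sum_congr rfl fun i _ => ?_
    simp only [tm, dA, dB, Pi.add_apply, Pi.smul_apply, Pi.neg_apply, smul_eq_mul]
    linear_combination (2 * Real.pi * Real.cos (ph (k i) x)) * hk d i
      - (2 * Real.pi * Real.sin (ph (k i) x)) * hk c i
  have i1 : IntegrableOn _ (Icc (0 : V) 1) volume := (hdc β).integrableOn_Icc
  have i2 : IntegrableOn _ (Icc (0 : V) 1) volume := (hdc γ).integrableOn_Icc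
  have i12 : IntegrableOn (fun x => fderiv ℝ (fderiv ℝ W) (F₀ + Fam k A B 1 x)
      (β 0 • G x 0 + β 1 • G x 1) (β 0 • G x 0 + β 1 • G x 1)
      + fderiv ℝ (fderiv ℝ W) (F₀ + Fam k A B 1 x)
      (γ 0 • G x 0 + γ 1 • G x 1) (γ 0 • G x 0 + γ 1 • G x 1)) (Icc (0 : V) 1) := i1.add i2
  have i123 : IntegrableOn (fun x => fderiv ℝ (fderiv ℝ W) (F₀ + Fam k A B 1 x)
      (β 0 • G x 0 + β 1 • G x 1) (β 0 • G x 0 + β 1 • G x 1)
      + fderiv ℝ (fderiv ℝ W) (F₀ + Fam k A B 1 x)
      (γ 0 • G x 0 + γ 1 • G x 1) (γ 0 • G x 0 + γ 1 • G x 1)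
      + ℓ ((F₀ + Fam k A B 1 x) 0) * nf (G x) 0 0 0 1) (Icc (0 : V) 1) := i12.add hi3
  rw [integral_add i123 hsc.integrableOn_Icc, integral_add i12 hi3, integral_add i1 i2, hnull2,
    hnull3] at hnn
  have f1 : (∫ x in Icc (0 : V) 1, fderiv ℝ (fderiv ℝ W) (F₀ + Fam k A B 1 x)
      (β 0 • G x 0 + β 1 • G x 1) (β 0 • G x 0 + β 1 • G x 1))
      + ∫ x in Icc (0 : V) 1, fderiv ℝ W (F₀ + Fam k A B 1 x)
        (Fam k (fun i => -(fr β k i ^ 2) • A i) (fun i => -(fr β k i ^ 2) • B i) 1 x) = 0 := hd1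
  have f2 : (∫ x in Icc (0 : V) 1, fderiv ℝ (fderiv ℝ W) (F₀ + Fam k A B 1 x)
      (γ 0 • G x 0 + γ 1 • G x 1) (γ 0 • G x 0 + γ 1 • G x 1))
      + ∫ x in Icc (0 : V) 1, fderiv ℝ W (F₀ + Fam k A B 1 x)
        (Fam k (fun i => -(fr γ k i ^ 2) • A i) (fun i => -(fr γ k i ^ 2) • B i) 1 x) = 0 := hd2
  linarith

/-- the energy is smaller at time `T` -/
theorem flow_le2 {W : E → ℝ} (hW : ContDiff ℝ 2 W) (β γ : V) {ℓ : V → ℝ} (hℓ : Measurable ℓ)
    (hb : ∀ R : ℝ, ∃ C : ℝ, ∀ v : V, ‖v‖ ≤ R → |ℓ v| ≤ C)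
    {C : Fin 2 → Fin 2 → Fin 2 → Fin 2 → ℝ} (hcond : Crit W β γ ℓ C)
    (F₀ : E) (k : ι → Fin 2 → ℤ) (c d : ι → V) {T : ℝ} (hT : 0 ≤ T) :
    ∫ x in Icc (0 : V) 1, W (F₀ + Fam k (dn β γ k T (grk k c)) (dn β γ k T (grk k d)) 1 x)
      ≤ ∫ x in Icc (0 : V) 1, W (F₀ + Fam k (grk k c) (grk k d) 1 x) := by
  have hP1 : ContDiff ℝ 1 (fderiv ℝ W) := hW.fderiv_right (by norm_num)
  have h00 : ∀ (A : ι → E), dn β γ k 0 A = A := by
    intro A
    funext i
    simp [dn]
  have hFc : Continuous (fun p : ℝ × V =>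
      F₀ + Fam k (dn β γ k p.1 (grk k c)) (dn β γ k p.1 (grk k d)) 1 p.2) :=
    continuous_const.add (continuous_Fam_coef k
      (fun i => (continuous_dn β γ k (grk k c) i).comp continuous_fst)
      (fun i => (continuous_dn β γ k (grk k d) i).comp continuous_fst) continuous_snd)
  have hsm : ∀ (A : ι → E) (i : ι),
      Continuous (fun p : ℝ × V => -(rt β γ k i) • dn β γ k p.1 A i) := by
    intro A i
    exact ((continuous_dn β γ k A i).comp (continuous_fst (X := ℝ) (Y := V))).const_smul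
      (-(rt β γ k i))
  have hGc : Continuous (fun p : ℝ × V =>
      Fam k (fun i => -(rt β γ k i) • dn β γ k p.1 (grk k c) i)
        (fun i => -(rt β γ k i) • dn β γ k p.1 (grk k d) i) 1 p.2) :=
    continuous_Fam_coef k (A := fun (p : ℝ × V) i => -(rt β γ k i) • dn β γ k p.1 (grk k c) i)
      (B := fun (p : ℝ × V) i => -(rt β γ k i) • dn β γ k p.1 (grk k d) i)
      (hsm _) (hsm _) continuous_snd
  have h := fub (fun t x => W (F₀ + Fam k (dn β γ k t (grk k c)) (dn β γ k t (grk k d)) 1 x))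
    (fun t x => fderiv ℝ W (F₀ + Fam k (dn β γ k t (grk k c)) (dn β γ k t (grk k d)) 1 x)
      (Fam k (fun i => -(rt β γ k i) • dn β γ k t (grk k c) i)
        (fun i => -(rt β γ k i) • dn β γ k t (grk k d) i) 1 x))
    (fun t x => ((hW.differentiable (by norm_num) _).hasFDerivAt).comp_hasDerivAt t
      ((hasDerivAt_dn β γ k (grk k c) (grk k d) t x).const_add F₀))
    (hW.continuous.comp hFc) ((hP1.continuous.comp hFc).clm_apply hGc)
    (fun t => step_neg2 hW β γ hℓ hb hcond F₀ k c d t) hT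
  simpa only [h00] using h

theorem limit_tendsto2 {W : E → ℝ} (hW : Continuous W) (β γ : V)
    (hβγ : ∀ v : V, v 0 * β 0 + v 1 * β 1 = 0 → v 0 * γ 0 + v 1 * γ 1 = 0 → v = 0)
    (F₀ : E) (k : ι → Fin 2 → ℤ) (c d : ι → V) :
    Tendsto (fun n : ℕ => ∫ x in Icc (0 : V) 1,
      W (F₀ + Fam k (dn β γ k n (grk k c)) (dn β γ k n (grk k d)) 1 x)) atTop (𝓝 (W F₀)) := by
  classical
  have hr0 : ∀ i, 0 ≤ rt β γ k i := fun i => add_nonneg (sq_nonneg _) (sq_nonneg _)
  have hle : ∀ (A : ι → E) (n : ℕ) (i : ι), ‖dn β γ k n A i‖ ≤ ‖A i‖ := by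
    intro A n i
    unfold dn
    rw [norm_smul, Real.norm_eq_abs, abs_of_pos (Real.exp_pos _)]
    refine mul_le_of_le_one_left (norm_nonneg _) ?_
    rw [Real.exp_le_one_iff]
    have : 0 ≤ (n : ℝ) * rt β γ k i := mul_nonneg (Nat.cast_nonneg n) (hr0 i)
    linarith
  have hlim : ∀ (e : ι → V) (i : ι), Tendsto (fun n : ℕ => dn β γ k n (grk k e) i) atTop
      (𝓝 0) := by
    intro e i
    unfold dn
    by_cases hfr : rt β γ k i = 0
    · have h1 : fr β k i = 0 ∧ fr γ k i = 0 := by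
        unfold rt at hfr
        constructor
        · have : fr β k i ^ 2 = 0 := by nlinarith [sq_nonneg (fr β k i), sq_nonneg (fr γ k i)]
          exact pow_eq_zero_iff two_ne_zero |>.1 this
        · have : fr γ k i ^ 2 = 0 := by nlinarith [sq_nonneg (fr β k i), sq_nonneg (fr γ k i)]
          exact pow_eq_zero_iff two_ne_zero |>.1 this
      have hpi := Real.pi_pos
      have hz : (fun j => (k i j : ℝ)) = (0 : V) := by
        refine hβγ _ ?_ ?_
        · have := h1.1
          unfold fr at this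
          rcases mul_eq_zero.1 this with h2 | h2
          · exfalso; linarith
          · exact h2
        · have := h1.2
          unfold fr at this
          rcases mul_eq_zero.1 this with h2 | h2
          · exfalso; linarith
          · exact h2
      have hg : grk k e i = 0 := by
        ext r l
        have := congrFun hz l
        simp only [Pi.zero_apply] at this
        simp [grk, this]
      simp [hg]
    · have h1 : Tendsto (fun n : ℕ => Real.exp (-((n : ℝ) * rt β γ k i))) atTop (𝓝 0) := by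
        refine Real.tendsto_exp_neg_atTop_nhds_zero.comp ?_
        refine Tendsto.atTop_mul_const (lt_of_le_of_ne (hr0 i) (Ne.symm hfr)) ?_
        exact tendsto_natCast_atTop_atTop
      have h2 := h1.smul_const (grk k e i)
      simpa using h2
  set A := grk k c with hA
  set B := grk k d with hB
  set C : ℝ := ∑ i, (‖A i‖ + ‖B i‖) with hC
  have hAC : ∀ i, ‖A i‖ ≤ C := by
    intro i
    have := Finset.single_le_sum (f := fun i => ‖A i‖ + ‖B i‖) (fun j _ => by positivity)
      (Finset.mem_univ i)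
    linarith [norm_nonneg (B i)]
  have hBC : ∀ i, ‖B i‖ ≤ C := by
    intro i
    have := Finset.single_le_sum (f := fun i => ‖A i‖ + ‖B i‖) (fun j _ => by positivity)
      (Finset.mem_univ i)
    linarith [norm_nonneg (A i)]
  have hbd : ∀ (n : ℕ) x, ‖F₀ + Fam k (dn β γ k n A) (dn β γ k n B) 1 x‖
      ≤ ‖F₀‖ + Fintype.card ι * (2 * C) := by
    intro n x
    refine (norm_add_le _ _).trans (add_le_add le_rfl ?_)
    exact E_bdd k (fun i => (hle A n i).trans (hAC i)) (fun i => (hle B n i).trans (hBC i)) x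
  obtain ⟨K, hK⟩ := (isCompact_closedBall (0 : E)
    (‖F₀‖ + Fintype.card ι * (2 * C))).exists_bound_of_continuousOn hW.continuousOn
  have hprob := volume_cube'
  have e0 : W F₀ = ∫ _x in Icc (0 : V) 1, W F₀ := by
    rw [integral_const]
    simp
  rw [e0]
  refine tendsto_integral_of_dominated_convergence (fun _ => K) (fun n => ?_) ?_ (fun n => ?_) ?_
  · exact (hW.comp (continuous_const.add (continuous_Fam k _ _ 1))).aestronglyMeasurable
  · exact integrable_const K
  · refine Eventually.of_forall fun x => ?_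
    refine hK _ ?_
    rw [mem_closedBall_zero_iff]
    exact hbd n x
  · refine Eventually.of_forall fun x => ?_
    have h1 : Tendsto (fun n : ℕ => F₀ + Fam k (dn β γ k n A) (dn β γ k n B) 1 x) atTop
        (𝓝 F₀) := by
      have h2 : Tendsto (fun n : ℕ => Fam k (dn β γ k n A) (dn β γ k n B) 1 x) atTop
          (𝓝 (∑ i : ι, (0 : E))) := by
        simp only [Fam_one]
        refine tendsto_finsetSum _ fun i _ => ?_
        unfold tm
        have := ((hlim c i).const_smul (Real.cos (ph (k i) x))).add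
          ((hlim d i).const_smul (Real.sin (ph (k i) x)))
        simpa using this
      have h3 := h2.const_add F₀
      simpa using h3
    exact (hW.tendsto F₀).comp h1

/-- **The criterion implies quasiconvexity** (for trigonometric polynomials). -/
theorem trig_main2 {W : E → ℝ} (hW : ContDiff ℝ 2 W) (β γ : V)
    (hβγ : ∀ v : V, v 0 * β 0 + v 1 * β 1 = 0 → v 0 * γ 0 + v 1 * γ 1 = 0 → v = 0) {ℓ : V → ℝ}
    (hℓ : Measurable ℓ) (hb : ∀ R : ℝ, ∃ C : ℝ, ∀ v : V, ‖v‖ ≤ R → |ℓ v| ≤ C)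
    {C : Fin 2 → Fin 2 → Fin 2 → Fin 2 → ℝ} (hcond : Crit W β γ ℓ C) : QCtrig W := by
  intro ι _ F₀ k c d
  have h2 := limit_tendsto2 hW.continuous β γ hβγ F₀ k c d
  refine le_of_tendsto h2 (Eventually.of_forall fun n => ?_)
  exact flow_le2 hW β γ hℓ hb hcond F₀ k c d (Nat.cast_nonneg n)

end fam

end Pool.Agent.V5helper40.MQR
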