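import Pool.Agent.V5helper40.MQR.Alg

/-!
# Functions of one row plus a quadratic form
-/

set_option autoImplicit false

open MeasureTheory Set Filter Topology Matrix

namespace Pool.Agent.V5helper40.MQR

open Pool.Agent.W779.Morrey hiding en en_apply
open Pool.Agent.N555.MQ

/-- the squared norm of the second row -/
noncomputable def BS (ε : ℝ) : E →L[ℝ] E →L[ℝ] ℝ :=
  ε • ((en 1 0).smulRight (en 1 0) + (en 1 1).smulRight (en 1 1))

theorem BS_apply (ε : ℝ) (F : E) : BS ε F F = ε * (F 1 0 ^ 2 + F 1 1 ^ 2) := by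
  simp only [BS, FunLike.coe_smul, Pi.smul_apply, _root_.add_apply,
    ContinuousLinearMap.smulRight_apply, en_apply, smul_eq_mul]
  ring

/-- **Functions of the first row plus a quadratic form.** -/
theorem row_main {h : V → ℝ} (hc : Continuous h) (B : E →L[ℝ] E →L[ℝ] ℝ)
    (hroc : ∀ F H : E, dt H = 0 → ∀ t : ℝ, 0 ≤ t → t ≤ 1 →
      h ((F + t • H) 0) + B (F + t • H) (F + t • H)
        ≤ (1 - t) * (h (F 0) + B F F) + t * (h ((F + H) 0) + B (F + H) (F + H))) :
    QCtrig (fun F : E => h (F 0) + B F F) := by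
  -- the inequality for `h`
  have hh : ∀ H : E, dt H = 0 → ∀ t : ℝ, 0 ≤ t → t ≤ 1 → ∀ v : V,
      h (v + t • H 0) ≤ (1 - t) * h v + t * h (v + H 0) + t * (1 - t) * B H H := by
    intro H hH t ht0 ht1 v
    have h1 := hroc (![v, 0]) H hH t ht0 ht1
    have e1 : ((![v, 0] : E) + t • H) 0 = v + t • H 0 := rfl
    have e2 : ((![v, 0] : E) + H) 0 = v + H 0 := rfl
    have e3 : (![v, 0] : E) 0 = v := rfl
    rw [e1, e2, e3] at h1
    simp only [map_add, map_smul, _root_.add_apply, FunLike.coe_smul, Pi.smul_apply,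
      smul_eq_mul] at h1
    linarith
  have hpos : ∀ n : ℕ, (0 : ℝ) < 1 / ((n : ℝ) + 1) := fun n => by positivity
  have hlim0 : Tendsto (fun n : ℕ => 1 / ((n : ℝ) + 1)) atTop (𝓝 0) :=
    tendsto_one_div_add_atTop_nhds_zero_nat
  refine QCtrig_limit (Wn := fun n F => hm h n (F 0) + (B + BS (1 / ((n : ℝ) + 1))) F F)
    (fun n => ?_) (fun n => ?_) (fun F => ?_) (fun R => ?_)
  · have hsm := hm_contDiff hc n
    have hR0 : ∀ (p : V) (H : E), dt H = 0 →
        0 ≤ fderiv ℝ (fderiv ℝ (hm h n)) p (H 0) (H 0) + 2 * B H H := by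
      intro p H hH
      have h1 : fderiv ℝ (fderiv ℝ (fun F : E => hm h n (rowL F) + B F F)) (![p, 0]) H H
          = fderiv ℝ (fderiv ℝ (hm h n)) p (H 0) (H 0) + 2 * B H H := second_WL hsm rowL B _ _
      rw [← h1]
      refine second_nonneg (contDiff_WL hsm rowL B) _ _ fun s u t ht0 ht1 => ?_
      have hdu : dt (u • H) = 0 := by
        have : dt (u • H) = u ^ 2 * dt H := by
          simp only [dt, Pi.smul_apply, smul_eq_mul]; ring
        rw [this, hH, mul_zero]
      have h2 := hm_ineq hc (fun v => hh (u • H) hdu t ht0 ht1 v) n (rowL (![p, 0] + s • H))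
      have e1 : rowL ((![p, 0] : E) + s • H) + t • (u • H) 0
          = rowL (![p, 0] + s • H + t • (u • H)) := rfl
      have e2 : rowL ((![p, 0] : E) + s • H) + (u • H) 0
          = rowL (![p, 0] + s • H + u • H) := rfl
      rw [e1, e2] at h2
      simp only [map_add (B), map_smul (B), _root_.add_apply, FunLike.coe_smul, Pi.smul_apply,
        smul_eq_mul, map_add (B _), map_smul (B _)] at h2 ⊢
      linarith
    refine smooth_row hsm _ (fun p H hH => ?_) (fun H hH0 hne => ?_)
    · have h1 := hR0 p H hH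
      have h2 := BS_apply (1 / ((n : ℝ) + 1)) H
      have h3 : (0 : ℝ) ≤ 1 / ((n : ℝ) + 1) * (H 1 0 ^ 2 + H 1 1 ^ 2) :=
        mul_nonneg (hpos n).le (by positivity)
      rw [_root_.add_apply, _root_.add_apply, h2]
      linarith
    · have hd : dt H = 0 := by
        have h1 := congrFun hH0 0
        have h2 := congrFun hH0 1
        simp only [Pi.zero_apply] at h1 h2
        simp [dt, h1, h2]
      have h1 := hR0 0 H hd
      rw [hH0, map_zero, zero_add] at h1
      have h2 := BS_apply (1 / ((n : ℝ) + 1)) H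
      have h3 : 0 < H 1 0 ^ 2 + H 1 1 ^ 2 := by
        have hx : H 1 0 ≠ 0 ∨ H 1 1 ≠ 0 := by
          by_contra hcon
          push Not at hcon
          refine hne ?_
          ext r l
          fin_cases r
          · exact congrFun hH0 l
          · fin_cases l
            · exact hcon.1
            · exact hcon.2
        rcases hx with h | h
        · positivity
        · positivity
      have h4 := mul_pos (hpos n) h3
      rw [_root_.add_apply, _root_.add_apply, h2]
      linarith
  · exact (contDiff_WL (hm_contDiff hc n) rowL _).continuous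
  · have h1 := hm_tendsto hc (F 0)
    have h2 : Tendsto (fun n : ℕ => (B + BS (1 / ((n : ℝ) + 1))) F F) atTop (𝓝 (B F F)) := by
      have e : (fun n : ℕ => (B + BS (1 / ((n : ℝ) + 1))) F F)
          = fun n : ℕ => B F F + 1 / ((n : ℝ) + 1) * (F 1 0 ^ 2 + F 1 1 ^ 2) := by
        funext n
        rw [_root_.add_apply, _root_.add_apply, BS_apply]
      rw [e]
      have := (hlim0.mul_const (F 1 0 ^ 2 + F 1 1 ^ 2)).const_add (B F F)
      simpa using this
    exact h1.add h2
  · obtain ⟨C1, hC1⟩ := (isCompact_closedBall (0 : V) (R + 1)).exists_bound_of_continuousOn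
      hc.continuousOn
    have hBc : Continuous (fun F : E => B F F) := B.continuous.clm_apply continuous_id
    have hBc2 : Continuous (fun F : E => BS 1 F F) := (BS 1).continuous.clm_apply continuous_id
    obtain ⟨C2, hC2⟩ := (isCompact_closedBall (0 : E) R).exists_bound_of_continuousOn
      hBc.continuousOn
    obtain ⟨C3, hC3⟩ := (isCompact_closedBall (0 : E) R).exists_bound_of_continuousOn
      hBc2.continuousOn
    refine ⟨C1 + (C2 + C3), fun n F hF => ?_⟩
    have hcF : ‖F 0‖ ≤ R := (norm_le_pi_norm F 0).trans hF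
    have b1 : |hm h n (F 0)| ≤ C1 := hm_bound hc (fun x hx => by
      have := hC1 x (by rwa [mem_closedBall_zero_iff])
      rwa [Real.norm_eq_abs] at this) n hcF
    have b2 : |B F F| ≤ C2 := by
      have := hC2 F (by rwa [mem_closedBall_zero_iff])
      rwa [Real.norm_eq_abs] at this
    have b3 : |BS (1 / ((n : ℝ) + 1)) F F| ≤ C3 := by
      have h1 := hC3 F (by rwa [mem_closedBall_zero_iff])
      rw [Real.norm_eq_abs, BS_apply, one_mul] at h1
      rw [BS_apply, abs_mul, abs_of_pos (hpos n)]
      have h2 : 1 / ((n : ℝ) + 1) ≤ 1 := by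
        rw [div_le_one (by positivity)]
        have : (0 : ℝ) ≤ n := Nat.cast_nonneg n
        linarith
      exact (mul_le_of_le_one_left (abs_nonneg _) h2).trans h1
    have e : (B + BS (1 / ((n : ℝ) + 1))) F F = B F F + BS (1 / ((n : ℝ) + 1)) F F := by
      rw [_root_.add_apply, _root_.add_apply]
    rw [e]
    exact (abs_add_le _ _).trans (add_le_add b1 ((abs_add_le _ _).trans (add_le_add b2 b3)))

/-- multiplication from the left by a matrix -/
noncomputable def lm (M : E) : E →L[ℝ] E :=
  ContinuousLinearMap.pi fun r => ContinuousLinearMap.pi fun l =>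
    M r 0 • en 0 l + M r 1 • en 1 l

theorem lm_apply (M F : E) (r l : Fin 2) : lm M F r l = M r 0 * F 0 l + M r 1 * F 1 l := by
  simp [lm, en_apply]

/-- the inequality for trigonometric polynomials is invariant under a linear map of the image -/
theorem QCtrig_lm {W : E → ℝ} (hW : QCtrig W) (M : E) : QCtrig (fun F => W (lm M F)) := by
  intro ι _ F₀ k c d
  have h := hW ι (lm M F₀) k (fun i r => M r 0 * c i 0 + M r 1 * c i 1)
    (fun i r => M r 0 * d i 0 + M r 1 * d i 1)
  refine h.trans (le_of_eq ?_)
  refine integral_congr_ae (Eventually.of_forall fun x => ?_)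
  simp only
  congr 1
  rw [map_add]
  congr 1
  ext r l
  rw [lm_apply]
  simp only [Fam_one, Finset.sum_apply, Finset.mul_sum, ← Finset.sum_add_distrib]
  refine Finset.sum_congr rfl fun i _ => ?_
  simp only [tm, grk, Pi.add_apply, Pi.smul_apply, smul_eq_mul]
  ring

theorem dt_lm (M F : E) : dt (lm M F) = dt M * dt F := by
  simp only [dt, lm_apply]
  ring

/-- one row plus a polynomial of degree two -/
theorem fin_row (α : V) (h : V → ℝ) (Q : QuadraticForm ℝ (Matrix (Fin 2) (Fin 2) ℝ))
    (L : Matrix (Fin 2) (Fin 2) ℝ →ₗ[ℝ] ℝ)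
    (hroc : Pool.Agent.Helper188.Morrey.RankOneConvex fun F => h (α ᵥ* F) + Q F + L F) :
    QC fun F => h (α ᵥ* F) + Q F + L F := by
  set oL : E →ₗ[ℝ] Matrix (Fin 2) (Fin 2) ℝ :=
    (Matrix.ofLinearEquiv ℝ : E ≃ₗ[ℝ] Matrix (Fin 2) (Fin 2) ℝ).toLinearMap with hoL
  have hoLa : ∀ F : E, oL F = of F := fun F => rfl
  set B : E →L[ℝ] E →L[ℝ] ℝ := LinearMap.toContinuousBilinearMap
    ((QuadraticMap.associated Q : LinearMap.BilinForm ℝ (Matrix (Fin 2) (Fin 2) ℝ)).compl₁₂ oL oL)
    with hB
  set L' : E →L[ℝ] ℝ := LinearMap.toContinuousLinearMap (E := E) (F' := ℝ) (L ∘ₗ oL) with hL'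
  have hBQ : ∀ F : E, B F F = Q (of F) := fun F => QuadraticMap.associated_eq_self_apply ℝ Q (of F)
  have hLL : ∀ F : E, L' F = L (of F) := fun F => rfl
  have hcM : Continuous fun F : Matrix (Fin 2) (Fin 2) ℝ => h (α ᵥ* F) + Q F + L F :=
    hroc.continuous
  have hc : Continuous fun F : E => h (α ᵥ* of F) + Q (of F) + L (of F) := hcM
  -- `M` is invertible with inverse `N` and `h (α F) = g ((M F) 0)`
  have key : ∀ (M N : E) (g : V → ℝ), (∀ F, lm N (lm M F) = F) → (∀ F, lm M (lm N F) = F) →
      (∀ F : E, h (α ᵥ* of F) = g (lm M F 0)) →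
      QC fun F => h (α ᵥ* F) + Q F + L F := by
    intro M N g hNM hMN hg
    have e3 : ∀ F : E, h (α ᵥ* of F) + Q (of F) + L (of F) = g (lm M F 0) + B F F + L' F := by
      intro F
      rw [hg, hBQ, hLL]
    refine QC_of_trig hc ?_
    have e : (fun F : E => h (α ᵥ* of F) + Q (of F) + L (of F))
        = fun F : E => (g (lm M F 0) + B F F) + L' F := funext e3
    have hBc : Continuous (fun F : E => B F F) := B.continuous.clm_apply continuous_id
    have hz : Continuous (fun v : V => lm N (![v, 0] : E)) := by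
      refine (lm N).continuous.comp ?_
      refine continuous_pi fun r => ?_
      fin_cases r
      · exact continuous_id
      · exact continuous_const
    have hgc : Continuous g := by
      have h1 : g = fun v => (h (α ᵥ* of (lm N (![v, 0] : E))) + Q (of (lm N (![v, 0] : E)))
          + L (of (lm N (![v, 0] : E)))) - B (lm N (![v, 0] : E)) (lm N (![v, 0] : E))
          - L' (lm N (![v, 0] : E)) := by
        funext v
        rw [e3, hMN]
        simp only [Matrix.cons_val_zero]
        ring
      rw [h1]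
      exact ((hc.comp hz).sub (hBc.comp hz)).sub (L'.continuous.comp hz)
    have hcW : Continuous (fun F : E => g (lm M F 0) + B F F) := by
      have : Continuous (fun F : E => lm M F 0) := (continuous_apply 0).comp (lm M).continuous
      exact (hgc.comp this).add hBc
    rw [e]
    refine QCtrig_add_lin ?_ hcW L'
    -- the transformed function
    set B' : E →L[ℝ] E →L[ℝ] ℝ := B.bilinearComp (lm N) (lm N) with hB'
    have hB'a : ∀ F, B' F F = B (lm N F) (lm N F) := fun F => rfl
    have hq : QCtrig (fun F : E => g (F 0) + B' F F) := by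
      refine row_main hgc B' fun F H hH t ht0 ht1 => ?_
      have h1 := hroc.seg (of (lm N F)) (of (lm N H)) (by rw [det_of, dt_lm, hH, mul_zero]) ht0 ht1
      have f1 := e3 (lm N F + t • lm N H)
      have f2 := e3 (lm N F)
      have f3 := e3 (lm N F + lm N H)
      have g1 : L' (lm N F + t • lm N H) = L' (lm N F) + t * L' (lm N H) := by
        rw [map_add, map_smul, smul_eq_mul]
      have g2 : L' (lm N F + lm N H) = L' (lm N F) + L' (lm N H) := map_add _ _ _
      have h2 : g (lm M (lm N F + t • lm N H) 0) + B (lm N F + t • lm N H) (lm N F + t • lm N H)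
            + L' (lm N F + t • lm N H)
          ≤ (1 - t) * (g (lm M (lm N F) 0) + B (lm N F) (lm N F) + L' (lm N F))
            + t * (g (lm M (lm N F + lm N H) 0) + B (lm N F + lm N H) (lm N F + lm N H)
              + L' (lm N F + lm N H)) := by
        rw [← f1, ← f2, ← f3]
        exact h1
      have a1 : lm N F + t • lm N H = lm N (F + t • H) := by rw [map_add, map_smul]
      have a2 : lm N F + lm N H = lm N (F + H) := by rw [map_add]
      rw [g1, g2, a1, a2, hMN, hMN, hMN] at h2
      rw [hB'a, hB'a, hB'a]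
      linarith
    have h4 := QCtrig_lm hq M
    have e5 : (fun F : E => g (lm M F 0) + B' (lm M F) (lm M F))
        = fun F : E => g (lm M F 0) + B F F := by
      funext F
      rw [hB'a, hNM]
    rw [← e5]
    exact h4
  by_cases hα : α = 0
  · refine key (fun r l => if r = l then 1 else 0) (fun r l => if r = l then 1 else 0)
      (fun _ => h 0) ?_ ?_ (fun F => by rw [hα, Matrix.zero_vecMul])
    · intro F
      ext r l
      rw [lm_apply, lm_apply, lm_apply]
      fin_cases r <;> simp
    · intro F
      ext r l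
      rw [lm_apply, lm_apply, lm_apply]
      fin_cases r <;> simp
  · have hn := (pos_sq hα).ne'
    set n := α 0 ^ 2 + α 1 ^ 2 with hndef
    refine key ![![α 0, α 1], ![-α 1, α 0]] ![![α 0 / n, -α 1 / n], ![α 1 / n, α 0 / n]] h ?_ ?_ ?_
    · intro F
      ext r l
      rw [lm_apply, lm_apply, lm_apply]
      fin_cases r
      · simp only [Fin.zero_eta, Matrix.cons_val_zero, Matrix.cons_val_one,
          Matrix.cons_val_fin_one]
        field_simp
        rw [hndef]
        ring
      · simp only [Fin.mk_one, Matrix.cons_val_zero, Matrix.cons_val_one,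
          Matrix.cons_val_fin_one]
        field_simp
        rw [hndef]
        ring
    · intro F
      ext r l
      rw [lm_apply, lm_apply, lm_apply]
      fin_cases r
      · simp only [Fin.zero_eta, Matrix.cons_val_zero, Matrix.cons_val_one,
          Matrix.cons_val_fin_one]
        field_simp
        rw [hndef]
        ring
      · simp only [Fin.mk_one, Matrix.cons_val_zero, Matrix.cons_val_one,
          Matrix.cons_val_fin_one]
        field_simp
        rw [hndef]
        ring
    · intro F
      congr 1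
      ext l
      rw [lm_apply]
      simp [Matrix.vecMul, dotProduct, Fin.sum_univ_two]

/-- the transposed quadratic form of the example -/
noncomputable def QT : QuadraticForm ℝ (Matrix (Fin 2) (Fin 2) ℝ) :=
  QE.comp (Matrix.transposeLinearEquiv (Fin 2) (Fin 2) ℝ ℝ).toLinearMap

theorem QT_apply (F : Matrix (Fin 2) (Fin 2) ℝ) : QT F = QE Fᵀ := rfl

theorem WT_eq (F : Matrix (Fin 2) (Fin 2) ℝ) :
    (fun v : V => kk (v 0) (v 1)) (![1, 0] ᵥ* F) + QT F = WE Fᵀ := by
  rw [QT_apply, ← WE_eq]
  congr 1
  rw [Matrix.mulVec_transpose]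

/-- the example is not polyconvex -/
theorem WT_not_poly : ¬ ∃ P : Matrix (Fin 2) (Fin 2) ℝ × ℝ → EReal, (∀ z, P z ≠ ⊥) ∧
    (∀ z w : Matrix (Fin 2) (Fin 2) ℝ × ℝ, ∀ a b : ℝ, 0 ≤ a → 0 ≤ b → a + b = 1 →
      P (a • z + b • w) ≤ (a : EReal) * P z + (b : EReal) * P w) ∧
    ∀ F, P (F, F.det) = (WE Fᵀ : EReal) := by
  rintro ⟨P, hP1, hP2, hP3⟩
  refine WE_not_poly ⟨fun z => P (z.1ᵀ, z.2), fun z => hP1 _, fun z w a b ha hb hab => ?_,
    fun F => ?_⟩
  · have := hP2 (z.1ᵀ, z.2) (w.1ᵀ, w.2) a b ha hb hab
    refine le_trans (le_of_eq ?_) this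
    congr 1
  · have := hP3 Fᵀ
    rw [Matrix.det_transpose, Matrix.transpose_transpose] at this
    exact this

end Pool.Agent.V5helper40.MQR
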