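import Pool.Agent.V5helper40.MQR.Flow

/-!
# The S-lemma for symmetric `2 × 2` matrices, with a measurable multiplier
-/

set_option autoImplicit false

open MeasureTheory Set Filter Topology

namespace Pool.Agent.V5helper40.MQR

open Pool.Agent.W779.Morrey Pool.Agent.N555.MQ

/-- The two-point form of the S-lemma on the symmetric matrices. -/
theorem two_point_sym (B : E →L[ℝ] E →L[ℝ] ℝ)
    (h : ∀ H : E, H 0 1 = H 1 0 → dt H = 0 → 0 ≤ B H H) (H K : E)
    (hHs : H 0 1 = H 1 0) (hKs : K 0 1 = K 1 0)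
    (hH : 0 < dt H) (hK : dt K < 0) : 0 ≤ dt H * B K K - dt K * B H H := by
  set a := dt K with ha
  set c := dt H with hc
  set m := H 0 0 * K 1 1 + K 0 0 * H 1 1 - H 0 1 * K 1 0 - K 0 1 * H 1 0 with hm
  have hdt : ∀ s : ℝ, dt (H + s • K) = c + m * s + a * s ^ 2 := by
    intro s
    simp only [dt, Pi.add_apply, Pi.smul_apply, smul_eq_mul, hc, ha, hm]
    ring
  have hsym : ∀ s : ℝ, (H + s • K) 0 1 = (H + s • K) 1 0 := by
    intro s
    simp only [Pi.add_apply, Pi.smul_apply, smul_eq_mul, hHs, hKs]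
  set D := m ^ 2 - 4 * a * c with hD
  have hDpos : 0 ≤ D := by nlinarith [sq_nonneg m, mul_pos (neg_pos.2 hK) hH]
  set r := Real.sqrt D with hr
  have hr2 : r ^ 2 = D := Real.sq_sqrt hDpos
  have hr0 : 0 ≤ r := Real.sqrt_nonneg D
  have hrm : m < r ∧ -m < r := by
    have h1 : m ^ 2 < r ^ 2 := by
      rw [hr2, hD]
      nlinarith [mul_pos (neg_pos.2 hK) hH]
    have h2 := abs_lt_of_sq_lt_sq h1 hr0
    have h3 := abs_lt.1 (by simpa using h2 : |m| < r)
    exact ⟨h3.2, by linarith [h3.1]⟩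
  have ha0 : a ≠ 0 := hK.ne
  set s1 := (-m - r) / (2 * a) with hs1
  set s2 := (-m + r) / (2 * a) with hs2
  have e1 : 2 * a * s1 = -m - r := by rw [hs1]; field_simp
  have e2 : 2 * a * s2 = -m + r := by rw [hs2]; field_simp
  have p1 : 0 < s1 := by
    by_contra hcon
    push Not at hcon
    have : 0 ≤ 2 * a * s1 := by nlinarith
    linarith [hrm.2]
  have p2 : s2 < 0 := by
    by_contra hcon
    push Not at hcon
    have : 2 * a * s2 ≤ 0 := by nlinarith
    linarith [hrm.1]
  have z1 : dt (H + s1 • K) = 0 := by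
    rw [hdt]
    have : 4 * a * (c + m * s1 + a * s1 ^ 2) = (2 * a * s1 + m) ^ 2 - D := by rw [hD]; ring
    rw [e1] at this
    have h0 : 4 * a * (c + m * s1 + a * s1 ^ 2) = 0 := by rw [this, ← hr2]; ring
    rcases mul_eq_zero.1 h0 with h1 | h1
    · exfalso; apply ha0; linarith
    · exact h1
  have z2 : dt (H + s2 • K) = 0 := by
    rw [hdt]
    have : 4 * a * (c + m * s2 + a * s2 ^ 2) = (2 * a * s2 + m) ^ 2 - D := by rw [hD]; ring
    rw [e2] at this
    have h0 : 4 * a * (c + m * s2 + a * s2 ^ 2) = 0 := by rw [this, ← hr2]; ring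
    rcases mul_eq_zero.1 h0 with h1 | h1
    · exfalso; apply ha0; linarith
    · exact h1
  have hprod : a * (s1 * s2) = c := by
    have h4 : 4 * a * (a * (s1 * s2)) = 4 * a * c := by
      have : 4 * a * (a * (s1 * s2)) = (2 * a * s1) * (2 * a * s2) := by ring
      rw [this, e1, e2]
      have : (-m - r) * (-m + r) = m ^ 2 - r ^ 2 := by ring
      rw [this, hr2, hD]; ring
    exact mul_left_cancel₀ (by simpa using ha0 : (4 * a : ℝ) ≠ 0) h4
  have q1 := h _ (hsym s1) z1
  have q2 := h _ (hsym s2) z2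
  simp only [map_add, map_smul, _root_.add_apply, FunLike.coe_smul, Pi.smul_apply,
    smul_eq_mul] at q1 q2
  have q3 : 0 ≤ (s1 - s2) * (B H H - s1 * s2 * B K K) := by
    have w1 := mul_nonneg (neg_pos.2 p2).le q1
    have w2 := mul_nonneg p1.le q2
    nlinarith
  have q4 : 0 ≤ B H H - s1 * s2 * B K K := by
    by_contra hcon
    push Not at hcon
    have : (s1 - s2) * (B H H - s1 * s2 * B K K) < 0 := mul_neg_of_pos_of_neg (by linarith) hcon
    linarith
  have q5 := mul_nonneg (neg_pos.2 hK).le q4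
  have q6 : -a * (B H H - s1 * s2 * B K K) = c * B K K - a * B H H := by
    rw [← hprod]; ring
  rw [q6] at q5
  exact q5

/-- a measurable and locally bounded multiplier -/
theorem sel_sym (T : V → E →L[ℝ] E →L[ℝ] ℝ) (hT : ∀ H : E, Continuous fun p => T p H H)
    (h : ∀ (p : V) (H : E), H 0 1 = H 1 0 → dt H = 0 → 0 ≤ T p H H) :
    ∃ ℓ : V → ℝ, Measurable ℓ ∧ (∀ R : ℝ, ∃ C : ℝ, ∀ v : V, ‖v‖ ≤ R → |ℓ v| ≤ C) ∧
      ∀ (p : V) (H : E), H 0 1 = H 1 0 → 0 ≤ T p H H + ℓ p * dt H := by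
  set I := {H : E // H 0 1 = H 1 0 ∧ 0 < dt H} with hI
  set f : I → V → ℝ := fun i v => -(T v i.1 i.1) / dt i.1 with hf
  have hfc : ∀ i, Continuous (f i) := by
    intro i
    exact (hT i.1).neg.div_const _
  have hfL : ∀ (v : V) (K : E), K 0 1 = K 1 0 → dt K < 0 → ∀ i, f i v ≤ T v K K / (-dt K) := by
    intro v K hKs hK i
    simp only [hf]
    rw [div_le_div_iff₀ i.2.2 (neg_pos.2 hK)]
    have := two_point_sym (T v) (h v) i.1 K i.2.1 hKs i.2.2 hK
    nlinarith
  set H0 : E := fun r l => if r = l then 1 else 0 with hH0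
  set K0 : E := fun r l => if r = l then (if r = 0 then (1:ℝ) else -1) else 0 with hK0
  have hdH0 : dt H0 = 1 := by simp [dt, hH0]
  have hdK0 : dt K0 = -1 := by simp [dt, hK0]
  have hK0s : K0 0 1 = K0 1 0 := by simp [hK0]
  have hbdd : ∀ v, BddAbove (range fun i => f i v) := by
    intro v
    refine ⟨T v K0 K0 / (-dt K0), ?_⟩
    rintro y ⟨i, rfl⟩
    exact hfL v K0 hK0s (by rw [hdK0]; norm_num) i
  set i0 : I := ⟨H0, by simp [hH0], by simp only [hdH0]; norm_num⟩ with hi0
  have : Nonempty I := ⟨i0⟩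
  set ℓ : V → ℝ := fun v => ⨆ i, f i v with hℓ
  have hmeas : Measurable ℓ :=
    (lowerSemicontinuous_ciSup hbdd fun i => (hfc i).lowerSemicontinuous).measurable
  have hℓf : ∀ v i, f i v ≤ ℓ v := fun v i => le_ciSup (hbdd v) i
  have hℓL : ∀ (v : V) (K : E), K 0 1 = K 1 0 → dt K < 0 → ℓ v ≤ T v K K / (-dt K) :=
    fun v K h1 h2 => ciSup_le fun i => hfL v K h1 h2 i
  refine ⟨ℓ, hmeas, ?_, ?_⟩
  · intro R
    obtain ⟨C1, hC1⟩ := (isCompact_closedBall (0 : V) R).exists_bound_of_continuousOn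
      (hfc i0).continuousOn
    obtain ⟨C2, hC2⟩ := (isCompact_closedBall (0 : V) R).exists_bound_of_continuousOn
      (hT K0).continuousOn
    refine ⟨max C1 C2, fun v hv => ?_⟩
    have hv' : v ∈ Metric.closedBall (0 : V) R := by rwa [mem_closedBall_zero_iff]
    have b1 := hC1 v hv'
    have b2 := hC2 v hv'
    rw [Real.norm_eq_abs] at b1 b2
    rw [abs_le]
    constructor
    · have := (abs_le.1 b1).1
      have h2 := hℓf v i0
      have h3 := le_max_left C1 C2
      linarith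
    · have h2 := hℓL v K0 hK0s (by rw [hdK0]; norm_num)
      rw [hdK0] at h2
      have h4 := (abs_le.1 b2).2
      have h5 := le_max_right C1 C2
      norm_num at h2
      linarith
  · intro p H hHs
    rcases lt_trichotomy (dt H) 0 with hH | hH | hH
    · have h1 := hℓL p H hHs hH
      rw [le_div_iff₀ (neg_pos.2 hH)] at h1
      linarith
    · rw [hH, mul_zero, add_zero]
      exact h p H hHs hH
    · have h1 := hℓf p ⟨H, hHs, hH⟩
      simp only [hf] at h1
      rw [div_le_iff₀ hH] at h1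
      linarith

/-- a singular symmetric matrix has rank at most one -/
theorem sym_singular (H : E) (hs : H 0 1 = H 1 0) (hd : dt H = 0) :
    ∃ (σ : ℝ) (w : V), ∀ r l, H r l = σ * (w r * w l) := by
  have hd' : H 0 0 * H 1 1 = H 0 1 * H 0 1 := by
    simp only [dt, ← hs] at hd
    linarith
  by_cases h0 : H 0 0 = 0
  · by_cases h1 : H 1 1 = 0
    · have h2 : H 0 1 = 0 := by
        rw [h0, zero_mul] at hd'
        exact mul_self_eq_zero.1 hd'.symm
      refine ⟨0, 0, fun r l => ?_⟩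
      fin_cases r <;> fin_cases l <;> simp [h0, h1, h2, ← hs]
    · refine ⟨(H 1 1)⁻¹, ![H 0 1, H 1 1], fun r l => ?_⟩
      have h2 : H 0 1 = 0 := by
        rw [h0, zero_mul] at hd'
        exact mul_self_eq_zero.1 hd'.symm
      fin_cases r <;> fin_cases l <;> simp [h0, h1, h2, ← hs]
  · refine ⟨(H 0 0)⁻¹, ![H 0 0, H 0 1], fun r l => ?_⟩
    fin_cases r <;> fin_cases l
    · simp [h0]
    · simp [h0]
    · simp only [Fin.mk_one, Fin.zero_eta, Matrix.cons_val_zero, Matrix.cons_val_one,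
        Matrix.cons_val_fin_one, ← hs]
      field_simp
    · simp only [Fin.mk_one, Matrix.cons_val_one, Matrix.cons_val_fin_one]
      field_simp
      linarith

/-- a positive definite form is a sum of two squares -/
theorem chol {a b c : ℝ} (ha : 0 < a) (hd : b ^ 2 < a * c) :
    ∃ β γ : V, β 0 ^ 2 + γ 0 ^ 2 = a ∧ β 0 * β 1 + γ 0 * γ 1 = b ∧ β 1 ^ 2 + γ 1 ^ 2 = c ∧
      ∀ v : V, v 0 * β 0 + v 1 * β 1 = 0 → v 0 * γ 0 + v 1 * γ 1 = 0 → v = 0 := by
  have hs : 0 < Real.sqrt a := Real.sqrt_pos.2 ha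
  have hs2 : Real.sqrt a ^ 2 = a := Real.sq_sqrt ha.le
  have hc : 0 < c - b ^ 2 / a := by
    have : b ^ 2 / a < c := by rw [div_lt_iff₀ ha]; linarith
    linarith
  have ht : 0 < Real.sqrt (c - b ^ 2 / a) := Real.sqrt_pos.2 hc
  have ht2 : Real.sqrt (c - b ^ 2 / a) ^ 2 = c - b ^ 2 / a := Real.sq_sqrt hc.le
  refine ⟨![Real.sqrt a, b / Real.sqrt a], ![0, Real.sqrt (c - b ^ 2 / a)], ?_, ?_, ?_, ?_⟩
  · simp [hs2]
  · simp only [Matrix.cons_val_zero, Matrix.cons_val_one, Matrix.cons_val_fin_one, zero_mul,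
      add_zero]
    field_simp
  · simp only [Matrix.cons_val_one, Matrix.cons_val_fin_one]
    rw [ht2, div_pow, hs2]
    ring
  · intro v h1 h2
    simp only [Matrix.cons_val_zero, Matrix.cons_val_one, Matrix.cons_val_fin_one, mul_zero,
      zero_add] at h1 h2
    have h3 : v 1 = 0 := by
      rcases mul_eq_zero.1 h2 with h | h
      · exact h
      · exact absurd h ht.ne'
    rw [h3, zero_mul, add_zero] at h1
    have h4 : v 0 = 0 := by
      rcases mul_eq_zero.1 h1 with h | h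
      · exact h
      · exact absurd h hs.ne'
    ext j
    fin_cases j
    · exact h4
    · exact h3

end Pool.Agent.V5helper40.MQR
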